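import Mathlib

set_option autoImplicit false

/-! Polygon maps: the basic maps, unit vectors and their directional derivatives. -/

open Filter Topology

namespace Pool.Agent.X98.PM

/-- An `n`-gon: `P i ≠ P (i+1)` for all `i` (indices modulo `n`). -/
def IsGon {n : ℕ} [NeZero n] (P : Fin n → ℂ) : Prop := ∀ i, P i ≠ P (i + 1)

/-- The unit vector `z / |z|`. -/
noncomputable def unit (z : ℂ) : ℂ := z / (‖z‖ : ℂ)

/-- `q_t`. -/
noncomputable def qMap {n : ℕ} [NeZero n] (t : ℝ) (P : Fin n → ℂ) : Fin n → ℂ :=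
  fun i => P i + t * unit (P i - P (i - 1))

/-- `r_t`. -/
noncomputable def rMap {n : ℕ} [NeZero n] (t : ℝ) (P : Fin n → ℂ) : Fin n → ℂ :=
  fun i => P i + t * unit (P i - P (i + 1))

/-- `f_t` is defined at `R` and `f_t R = Q`. -/
def FMap {n : ℕ} [NeZero n] (t : ℝ) (R Q : Fin n → ℂ) : Prop :=
  0 < t ∧ (∀ i, t < ‖R i - R (i + 1)‖ / 2) ∧
    ∃ P, IsGon P ∧ rMap t P = R ∧ (∀ P', IsGon P' → rMap t P' = R → P' = P) ∧ qMap t P = Q

/-- The vector field `ξ`. -/
noncomputable def xi {n : ℕ} [NeZero n] (P : Fin n → ℂ) : Fin n → ℂ :=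
  fun i => (1 / 2) * (unit (P i - P (i - 1)) - unit (P i - P (i + 1)))

/-! ### uniqueness of the preimage under `r_t` -/

theorem unit_norm {z : ℂ} (hz : z ≠ 0) : ‖unit z‖ = 1 := by
  unfold unit
  rw [norm_div, Complex.norm_real, norm_norm]
  exact div_self (norm_ne_zero_iff.2 hz)

theorem unit_add {z : ℂ} (hz : z ≠ 0) {t : ℝ} (ht : 0 < t) : unit (z + t * unit z) = unit z := by
  have hn : (0 : ℝ) < ‖z‖ := norm_pos_iff.2 hz
  have e : z + t * unit z = ((‖z‖ + t : ℝ) : ℂ) * unit z := by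
    unfold unit
    push_cast
    have : (‖z‖ : ℂ) ≠ 0 := by exact_mod_cast hn.ne'
    field_simp
  have e2 : ‖z + t * unit z‖ = ‖z‖ + t := by
    rw [e, norm_mul, unit_norm hz, Complex.norm_real, mul_one, Real.norm_of_nonneg (by linarith)]
  have e3 : unit (z + t * unit z) = (z + t * unit z) / (‖z + t * unit z‖ : ℂ) := rfl
  rw [e3, e2, e]
  have : ((‖z‖ + t : ℝ) : ℂ) ≠ 0 := by exact_mod_cast (by linarith : (0 : ℝ) < ‖z‖ + t).ne'
  field_simp

theorem unit_lip {a b : ℂ} {t : ℝ} (ht : 0 < t) (ha : t < ‖a‖) (hb : t < ‖b‖) (hab : a ≠ b) :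
    t * ‖unit a - unit b‖ < ‖a - b‖ := by
  have ha0 : 0 < ‖a‖ := ht.trans ha
  have hb0 : 0 < ‖b‖ := ht.trans hb
  have key : ‖a - b‖ ^ 2 = (‖a‖ - ‖b‖) ^ 2 + ‖a‖ * ‖b‖ * ‖unit a - unit b‖ ^ 2 := by
    have e1 : a = (‖a‖ : ℂ) * unit a := by
      unfold unit
      have : (‖a‖ : ℂ) ≠ 0 := by exact_mod_cast ha0.ne'
      field_simp
    have e2 : b = (‖b‖ : ℂ) * unit b := by
      unfold unit
      have : (‖b‖ : ℂ) ≠ 0 := by exact_mod_cast hb0.ne'
      field_simp
    have n1 : ‖unit a‖ = 1 := unit_norm (norm_pos_iff.1 ha0)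
    have n2 : ‖unit b‖ = 1 := unit_norm (norm_pos_iff.1 hb0)
    generalize ‖a‖ = α at *
    generalize ‖b‖ = β at *
    generalize unit a = x at *
    generalize unit b = y at *
    rw [e1, e2]
    have m1 : x.re ^ 2 + x.im ^ 2 = 1 := by
      have := Complex.sq_norm x
      rw [n1, Complex.normSq_apply] at this
      linarith [this, sq x.re, sq x.im]
    have m2 : y.re ^ 2 + y.im ^ 2 = 1 := by
      have := Complex.sq_norm y
      rw [n2, Complex.normSq_apply] at this
      linarith [this, sq y.re, sq y.im]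
    rw [Complex.sq_norm, Complex.sq_norm, Complex.normSq_apply, Complex.normSq_apply]
    simp only [Complex.sub_re, Complex.sub_im, Complex.mul_re, Complex.mul_im, Complex.ofReal_re,
      Complex.ofReal_im, zero_mul, sub_zero, add_zero]
    linear_combination (α ^ 2 - α * β) * m1 + (β ^ 2 - α * β) * m2
  have hnn : 0 ≤ ‖unit a - unit b‖ := norm_nonneg _
  have hd : 0 < ‖a - b‖ := norm_pos_iff.2 (sub_ne_zero.2 hab)
  by_contra hcon
  push Not at hcon
  have h1 : ‖a - b‖ ^ 2 ≤ (t * ‖unit a - unit b‖) ^ 2 := pow_le_pow_left₀ hd.le hcon 2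
  have hu : 0 < ‖unit a - unit b‖ := by
    rcases hnn.lt_or_eq with h | h
    · exact h
    · rw [← h, mul_zero] at hcon
      linarith
  have h2 : t ^ 2 < ‖a‖ * ‖b‖ := by nlinarith
  have h3 : 0 < ‖unit a - unit b‖ ^ 2 := by positivity
  nlinarith [sq_nonneg (‖a‖ - ‖b‖)]

theorem rMap_inj {n : ℕ} [NeZero n] {t : ℝ} (ht : 0 < t) {P P' : Fin n → ℂ} (h : IsGon P)
    (h' : IsGon P') (hR : rMap t P = rMap t P')
    (hs : ∀ i, t < ‖rMap t P i - rMap t P (i + 1)‖ / 2) : P = P' := by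
  have aux : ∀ (Q : Fin n → ℂ), IsGon Q → ∀ i, unit (rMap t Q i - Q (i + 1)) = unit (Q i - Q (i + 1)) := by
    intro Q hQ i
    have : rMap t Q i - Q (i + 1) = (Q i - Q (i + 1)) + t * unit (Q i - Q (i + 1)) := by
      unfold rMap; ring
    rw [this, unit_add (sub_ne_zero.2 (hQ i)) ht]
  have far : ∀ (Q : Fin n → ℂ), IsGon Q → (∀ i, t < ‖rMap t Q i - rMap t Q (i + 1)‖ / 2) →
      ∀ i, t < ‖rMap t Q i - Q (i + 1)‖ := by
    intro Q hQ hs i
    have h1 : ‖rMap t Q (i + 1) - Q (i + 1)‖ = t := by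
      have : rMap t Q (i + 1) - Q (i + 1) = t * unit (Q (i + 1) - Q (i + 1 + 1)) := by
        unfold rMap; ring
      rw [this, norm_mul, unit_norm (sub_ne_zero.2 (hQ _)), Complex.norm_real, mul_one,
        Real.norm_of_nonneg ht.le]
    have h2 : ‖rMap t Q i - rMap t Q (i + 1)‖ ≤ ‖rMap t Q i - Q (i + 1)‖ + ‖rMap t Q (i + 1) - Q (i + 1)‖ := by
      have := norm_sub_le (rMap t Q i - Q (i + 1)) (rMap t Q (i + 1) - Q (i + 1))
      rwa [sub_sub_sub_cancel_right] at this
    have := hs i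
    linarith
  obtain ⟨i, -, hi⟩ := Finset.exists_max_image (Finset.univ : Finset (Fin n)) (fun i => ‖P i - P' i‖)
    ⟨0, Finset.mem_univ _⟩
  have hz : ‖P i - P' i‖ = 0 := by
    by_contra hne
    have hpos : 0 < ‖P i - P' i‖ := lt_of_le_of_ne (norm_nonneg _) (Ne.symm hne)
    have e : P i - P' i = -(t * (unit (rMap t P i - P (i + 1)) - unit (rMap t P' i - P' (i + 1)))) := by
      rw [aux P h i, aux P' h' i]
      have e0 := congrFun hR i
      unfold rMap at e0
      linear_combination e0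
    have hne1 : P (i + 1) ≠ P' (i + 1) := by
      intro heq
      rw [hR, heq, sub_self, mul_zero, neg_zero] at e
      rw [e, norm_zero] at hpos
      exact lt_irrefl _ hpos
    have h1 := unit_lip ht (far P h hs i) (by
      have := far P' h' (by rw [← hR]; exact hs) i
      exact this) (a := rMap t P i - P (i + 1)) (b := rMap t P' i - P' (i + 1)) (by
        rw [hR]
        intro hh
        exact hne1 (sub_right_injective hh))
    have h2 : ‖P i - P' i‖ < ‖P (i + 1) - P' (i + 1)‖ := by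
      rw [e, norm_neg, norm_mul, Complex.norm_real, Real.norm_of_nonneg ht.le]
      refine lt_of_lt_of_eq h1 ?_
      rw [hR, sub_sub_sub_cancel_left, norm_sub_rev]
    exact absurd (hi (i + 1) (Finset.mem_univ _)) (not_le.2 h2)
  funext j
  have := hi j (Finset.mem_univ _)
  rw [hz] at this
  exact sub_eq_zero.1 (norm_eq_zero.1 (le_antisymm this (norm_nonneg _)))

end Pool.Agent.X98.PM
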