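import Pool.Agent.X98.PM.Val

set_option autoImplicit false
set_option linter.unusedSimpArgs false

/-! Near the triangle with sides 3, 4, 5 every function invariant under all `f_t` has
differential proportional to that of the area. -/

open Filter Topology

namespace Pool.Agent.X98.PM

/-- six real coefficients to a field -/
noncomputable def Lm (P : V) : (Fin 6 → ℝ) →ₗ[ℝ] V where
  toFun x := fld P ![x 0, x 1, x 2] ![x 3, x 4, x 5]
  map_add' x y := by
    funext i
    match i with
    | 0 =>
      simp only [fld, ip0, ip1, ip2, e0, e1, e2, Pi.add_apply]; push_cast; ring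
    | 1 =>
      simp only [fld, ip0, ip1, ip2, e0, e1, e2, Pi.add_apply]; push_cast; ring
    | 2 =>
      simp only [fld, ip0, ip1, ip2, e0, e1, e2, Pi.add_apply]; push_cast; ring
  map_smul' c x := by
    funext i
    match i with
    | 0 =>
      simp only [fld, ip0, ip1, ip2, e0, e1, e2, Pi.smul_apply, smul_eq_mul, RingHom.id_apply,
        Complex.real_smul]; push_cast; ring
    | 1 =>
      simp only [fld, ip0, ip1, ip2, e0, e1, e2, Pi.smul_apply, smul_eq_mul, RingHom.id_apply,
        Complex.real_smul]; push_cast; ring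
    | 2 =>
      simp only [fld, ip0, ip1, ip2, e0, e1, e2, Pi.smul_apply, smul_eq_mul, RingHom.id_apply,
        Complex.real_smul]; push_cast; ring

theorem Lm_cf (P : V) (A B : Fin 3 → ℝ) : Lm P (cf A B) = fld P A B := by
  show fld P ![A 0, A 1, A 2] ![B 0, B 1, B 2] = _
  congr 1
  · exact ext3 rfl rfl rfl
  · exact ext3 rfl rfl rfl

theorem decomp {P : V} (hdet : (MM (Ss P) (Cc P) (Rr P)).det ≠ 0) (A B : Fin 3 → ℝ) :
    ∃ l : Fin 6 → ℝ, fld P A B = l 0 • W1 P + l 1 • W2 P + l 2 • W3 P + l 3 • W4 P + l 4 • W5 P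
      + l 5 • fld P 0 ![1, 0, 0] := by
  have h : Matrix.vecMul (Matrix.vecMul (cf A B) (MM (Ss P) (Cc P) (Rr P))⁻¹)
      (MM (Ss P) (Cc P) (Rr P)) = cf A B := by
    rw [Matrix.vecMul_vecMul, Matrix.nonsing_inv_mul _ (isUnit_iff_ne_zero.2 hdet),
      Matrix.vecMul_one]
  generalize Matrix.vecMul (cf A B) (MM (Ss P) (Cc P) (Rr P))⁻¹ = l at h
  refine ⟨l, ?_⟩
  have h2 : Lm P (Matrix.vecMul l (MM (Ss P) (Cc P) (Rr P)))
      = ∑ i, l i • Lm P ((MM (Ss P) (Cc P) (Rr P)) i) := by
    rw [Matrix.vecMul_eq_sum, map_sum]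
    refine Finset.sum_congr rfl fun i _ => ?_
    rw [map_smul]
  rw [h, Lm_cf, Fin.sum_univ_six] at h2
  rw [h2]
  have m0 : Lm P ((MM (Ss P) (Cc P) (Rr P)) 0) = W1 P := Lm_cf P _ _
  have m1 : Lm P ((MM (Ss P) (Cc P) (Rr P)) 1) = W2 P := Lm_cf P _ _
  have m2 : Lm P ((MM (Ss P) (Cc P) (Rr P)) 2) = W3 P := Lm_cf P _ _
  have m3 : Lm P ((MM (Ss P) (Cc P) (Rr P)) 3) = W4 P := Lm_cf P _ _
  have m4 : Lm P ((MM (Ss P) (Cc P) (Rr P)) 4) = W5 P := Lm_cf P _ _
  have m5 : Lm P ((MM (Ss P) (Cc P) (Rr P)) 5) = fld P 0 ![1, 0, 0] := Lm_cf P _ _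
  rw [m0, m1, m2, m3, m4, m5]

/-- Every vector is a value of a field. -/
theorem fld_surj {P : V} (h : IsGon P) (w : V) : ∃ A B : Fin 3 → ℝ, fld P A B = w := by
  refine ⟨fun j => Xx P j * ((w j).re - (w (j + 1)).re + (w (j + 1 + 1)).re) / 2
      + Yy P j * ((w j).im - (w (j + 1)).im + (w (j + 1 + 1)).im) / 2,
    fun j => Xx P j * ((w j).im - (w (j + 1)).im + (w (j + 1 + 1)).im) / 2
      - Yy P j * ((w j).re - (w (j + 1)).re + (w (j + 1 + 1)).re) / 2, ?_⟩
  funext i
  have e : i + 1 + 1 + 1 = i := by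
    match i with
    | 0 => rfl
    | 1 => rfl
    | 2 => rfl
  unfold fld
  beta_reduce
  rw [e]
  have h1 := sqn h i
  have h2 := sqn h (i + 1)
  generalize Xx P i = x at *
  generalize Yy P i = y at *
  generalize Xx P (i + 1) = x' at *
  generalize Yy P (i + 1) = y' at *
  apply Complex.ext
  · simp only [Complex.add_re, Complex.ofReal_re, Complex.mul_re, Complex.I_re, mul_zero,
      Complex.ofReal_im, Complex.I_im, mul_one, sub_self, add_zero]
    linear_combination ((w i).re - (w (i + 1)).re + (w (i + 1 + 1)).re) / 2 * h1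
      + ((w (i + 1)).re - (w (i + 1 + 1)).re + (w i).re) / 2 * h2
  · simp only [Complex.add_im, Complex.ofReal_im, Complex.mul_im, Complex.I_im,
      Complex.ofReal_re, Complex.I_re, mul_zero, mul_one, add_zero, zero_add]
    linear_combination ((w i).im - (w (i + 1)).im + (w (i + 1 + 1)).im) / 2 * h1
      + ((w (i + 1)).im - (w (i + 1 + 1)).im + (w i).im) / 2 * h2

/-! ### the area -/

/-- Twice the signed area of a triangle. -/
def Ar (P : V) : ℝ := (P 0).re * (P 1).im - (P 0).im * (P 1).re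
  + ((P 1).re * (P 2).im - (P 1).im * (P 2).re) + ((P 2).re * (P 0).im - (P 2).im * (P 0).re)

def dAr (P w : V) : ℝ :=
  ((w 0).re * (P 1).im + (P 0).re * (w 1).im - (w 0).im * (P 1).re - (P 0).im * (w 1).re)
  + ((w 1).re * (P 2).im + (P 1).re * (w 2).im - (w 1).im * (P 2).re - (P 1).im * (w 2).re)
  + ((w 2).re * (P 0).im + (P 2).re * (w 0).im - (w 2).im * (P 0).re - (P 2).im * (w 0).re)

theorem Ar_line (P w : V) (s : ℝ) : Ar (P + s • w) = Ar P + s * dAr P w + s ^ 2 * Ar w := by
  unfold Ar dAr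
  simp only [Pi.add_apply, Pi.smul_apply, Complex.add_re, Complex.add_im, Complex.smul_re,
    Complex.smul_im, smul_eq_mul]
  ring

theorem Ar_smooth : ContDiff ℝ 2 Ar := by
  have hr : ∀ i : Fin 3, ContDiff ℝ 2 (fun P : V => (P i).re) := fun i =>
    Complex.reCLM.contDiff.comp (contDiff_apply ℝ ℂ i)
  have hi : ∀ i : Fin 3, ContDiff ℝ 2 (fun P : V => (P i).im) := fun i =>
    Complex.imCLM.contDiff.comp (contDiff_apply ℝ ℂ i)
  have := ((((hr 0).mul (hi 1)).sub ((hi 0).mul (hr 1))).add
    (((hr 1).mul (hi 2)).sub ((hi 1).mul (hr 2)))).add (((hr 2).mul (hi 0)).sub ((hi 2).mul (hr 0)))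
  exact this

theorem Ar_fderiv (P w : V) : fderiv ℝ Ar P w = dAr P w := by
  have h1 : HasFDerivAt Ar (fderiv ℝ Ar P) (P + (0 : ℝ) • w) := by
    rw [zero_smul, add_zero]
    exact ((Ar_smooth.contDiffAt (x := P)).differentiableAt (by norm_num)).hasFDerivAt
  have h3 : HasDerivAt (fun s : ℝ => P + s • w) w 0 := by
    simpa using ((hasDerivAt_id (0 : ℝ)).smul_const w).const_add P
  have h4 := h1.comp_hasDerivAt (0 : ℝ) h3
  have h5 : HasDerivAt (fun s : ℝ => Ar P + s * dAr P w + s ^ 2 * Ar w) (dAr P w) 0 := by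
    have a1 := ((hasDerivAt_id (0 : ℝ)).mul_const (dAr P w)).const_add (Ar P)
    have a2 := ((hasDerivAt_id (0 : ℝ)).fun_pow 2).mul_const (Ar w)
    refine (a1.add a2).congr_deriv ?_
    simp
  have h6 : (fun s : ℝ => Ar P + s * dAr P w + s ^ 2 * Ar w) = Ar ∘ (fun s : ℝ => P + s • w) := by
    funext s
    exact (Ar_line P w s).symm
  rw [h6] at h5
  exact h4.unique h5

theorem uu_re (P : V) (i : Fin 3) : (uu P i).re = Xx P i := by
  show (unit (ed P i)).re = _
  rw [unit_ed]; simp
theorem uu_im (P : V) (i : Fin 3) : (uu P i).im = Yy P i := by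
  show (unit (ed P i)).im = _
  rw [unit_ed]; simp
theorem vv_re (P : V) (i : Fin 3) : (vv P i).re = -Xx P (i + 1) := by
  rw [vv_eq, unit_ed]; simp
theorem vv_im (P : V) (i : Fin 3) : (vv P i).im = -Yy P (i + 1) := by
  rw [vv_eq, unit_ed]; simp

theorem Ar_inv {U : Set V} (hU : IsOpen U) (hg : ∀ P ∈ U, IsGon P) : Inv U Ar := by
  refine ⟨hU, hg, Ar_smooth.contDiffOn, fun P _ => Eventually.of_forall fun t => ?_⟩
  rw [Ar_line, Ar_line]
  have a1 : Ar (uu P) = Ar (vv P) := by
    unfold Ar
    simp only [uu_re, uu_im, vv_re, vv_im, ip0, ip1, ip2]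
    ring
  have a2 : dAr P (uu P) = dAr P (vv P) := by
    unfold dAr
    simp only [uu_re, uu_im, vv_re, vv_im, ip0, ip1, ip2]
    unfold Xx Yy ed
    simp only [im0, im1, im2, Complex.sub_re, Complex.sub_im]
    ring
  rw [a1, a2]

/-- Near good triangles, an invariant function has differential proportional to that of the area. -/
theorem rigid {E : Type*} [NormedAddCommGroup E] [NormedSpace ℝ E] {U : Set V} {F : V → E}
    (h : Inv U F) {P : V} (hP : P ∈ U) (hdet : (MM (Ss P) (Cc P) (Rr P)).det ≠ 0)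
    (ha : dAr P (fld P 0 ![1, 0, 0]) ≠ 0) (w : V) (hw : dAr P w = 0) : fderiv ℝ F P w = 0 := by
  obtain ⟨A, B, hAB⟩ := fld_surj (h.gon P hP) w
  obtain ⟨l, hl⟩ := decomp hdet A B
  rw [hAB] at hl
  have hAr := Ar_inv h.isOpen h.gon
  have h5 : l 5 = 0 := by
    have e : fderiv ℝ Ar P w = l 5 * dAr P (fld P 0 ![1, 0, 0]) := by
      rw [hl]
      simp only [map_add, map_smul, k1 hAr P hP, k2 hAr P hP, k3 hAr P hP, k4 hAr P hP,
        k5 hAr P hP, smul_zero, mul_zero, zero_add, add_zero, smul_eq_mul, Ar_fderiv]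
    rw [Ar_fderiv, hw] at e
    exact (mul_eq_zero.1 e.symm).resolve_right ha
  rw [hl, h5]
  simp only [map_add, map_smul, k1 h P hP, k2 h P hP, k3 h P hP, k4 h P hP, k5 h P hP, smul_zero,
    zero_add, add_zero, zero_smul]

/-! ### the triangle with sides 3, 4, 5 -/

/-- The triangle `0, 3, 4i`. -/
def P0 : V := ![0, 3, 4 * Complex.I]

theorem ed00 : ed P0 0 = -(4 * Complex.I) := by
  show (0 : ℂ) - 4 * Complex.I = _
  ring
theorem ed01 : ed P0 1 = 3 := by
  show (3 : ℂ) - 0 = _
  ring
theorem ed02 : ed P0 2 = 4 * Complex.I - 3 := rfl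

theorem R0_eq : Rr P0 = R0 := by
  refine ext3 ?_ ?_ ?_
  · unfold Rr; rw [ed00, r00]; simp
  · unfold Rr; rw [ed01, r01]; simp
  · unfold Rr; rw [ed02, r02]
    have h : ‖(4 * Complex.I - 3 : ℂ)‖ = 5 := by
      rw [← Real.sqrt_sq (norm_nonneg (4 * Complex.I - 3 : ℂ)), Complex.sq_norm,
        Complex.normSq_apply]
      rw [show (4 * Complex.I - 3 : ℂ).re * (4 * Complex.I - 3 : ℂ).re
        + (4 * Complex.I - 3 : ℂ).im * (4 * Complex.I - 3 : ℂ).im = 5 ^ 2 by norm_num]
      exact Real.sqrt_sq (by norm_num)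
    rw [h]; norm_num

theorem X0_eq : Xx P0 = ![0, 1, -3 / 5] := by
  refine ext3 ?_ ?_ ?_
  · unfold Xx; rw [ed00, R0_eq, r00]; simp
  · unfold Xx; rw [ed01, R0_eq, r01]; norm_num
  · unfold Xx; rw [ed02, R0_eq, r02, e2]; norm_num

theorem Y0_eq : Yy P0 = ![-1, 0, 4 / 5] := by
  refine ext3 ?_ ?_ ?_
  · unfold Yy; rw [ed00, R0_eq, r00]; simp
  · unfold Yy; rw [ed01, R0_eq, r01]; norm_num
  · unfold Yy; rw [ed02, R0_eq, r02, e2]; norm_num

theorem S0_eq : Ss P0 = S0 := by
  refine ext3 ?_ ?_ ?_ <;> simp only [Ss, X0_eq, Y0_eq, ip0, ip1, ip2, e0, e1, e2, s00, s01, s02]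
    <;> norm_num

theorem C0_eq : Cc P0 = C0 := by
  refine ext3 ?_ ?_ ?_ <;> simp only [Cc, X0_eq, Y0_eq, ip0, ip1, ip2, e0, e1, e2, c00, c01, c02]
    <;> norm_num

theorem gon0 : IsGon P0 := by
  intro i
  match i with
  | 0 => show (0 : ℂ) ≠ 3; norm_num
  | 1 =>
    show (3 : ℂ) ≠ 4 * Complex.I
    intro h
    have := congrArg Complex.re h
    norm_num at this
  | 2 => show 4 * Complex.I ≠ (0 : ℂ); simp

theorem dAr0 : dAr P0 (fld P0 0 ![1, 0, 0]) ≠ 0 := by
  have h0 : fld P0 0 ![1, 0, 0] 0 = 1 := by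
    simp only [fld, X0_eq, Y0_eq, ip0, ip1, ip2, e0, e1, e2, Pi.zero_apply]
    norm_num
  have h1 : fld P0 0 ![1, 0, 0] 1 = 0 := by
    simp only [fld, X0_eq, Y0_eq, ip0, ip1, ip2, e0, e1, e2, Pi.zero_apply]
    norm_num
  have h2 : fld P0 0 ![1, 0, 0] 2 = 1 := by
    simp only [fld, X0_eq, Y0_eq, ip0, ip1, ip2, e0, e1, e2, Pi.zero_apply]
    norm_num
  unfold dAr
  rw [h0, h1, h2]
  have p0 : P0 0 = 0 := rfl
  have p1 : P0 1 = 3 := rfl
  have p2 : P0 2 = 4 * Complex.I := rfl
  rw [p0, p1, p2]
  norm_num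

/-! ### continuity -/

section cont

variable {X : Type*} [TopologicalSpace X] {S C R S' C' R' : X → Fin 3 → ℝ}

theorem cT {A B : X → Fin 3 → ℝ} (hS : Continuous S) (hC : Continuous C) (hR : Continuous R)
    (hA : Continuous A) (hB : Continuous B) :
    Continuous fun x => TT (S x) (C x) (R x) (A x) (B x) := by
  refine continuous_pi fun j => ?_
  unfold TT
  fun_prop

theorem cG {A B : X → Fin 3 → ℝ} (hS : Continuous S) (hC : Continuous C)
    (hA : Continuous A) (hB : Continuous B) :
    Continuous fun x => GG (S x) (C x) (A x) (B x) := by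
  refine continuous_pi fun j => ?_
  unfold GG
  fun_prop

theorem cdS (hC : Continuous C) (hT : Continuous S') : Continuous fun x => dSs (C x) (S' x) := by
  refine continuous_pi fun j => ?_
  unfold dSs
  fun_prop

theorem cdC (hC : Continuous C) (hT : Continuous S') : Continuous fun x => dCc (C x) (S' x) := by
  refine continuous_pi fun j => ?_
  unfold dCc
  fun_prop

theorem cdR (hC : Continuous C) (hT : Continuous S') : Continuous fun x => dRr (C x) (S' x) := by
  refine continuous_pi fun j => ?_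
  unfold dRr
  fun_prop

theorem cK (hS : Continuous S) (hR : Continuous R) : Continuous fun x => Kk (S x) (R x) := by
  refine continuous_pi fun j => ?_
  unfold Kk
  fun_prop

theorem cOm (hS : Continuous S) (hR : Continuous R) : Continuous fun x => Om (S x) (R x) := by
  refine continuous_pi fun j => ?_
  unfold Om
  fun_prop

theorem cMu (hS : Continuous S) (hC : Continuous C) (hR : Continuous R) :
    Continuous fun x => Mu (S x) (C x) (R x) := by
  have h := cK hS hR
  refine continuous_pi fun j => ?_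
  unfold Mu
  have h1 := (continuous_pi_iff.1 h) (j + 1)
  have h2 := (continuous_pi_iff.1 h) (j - 1)
  fun_prop

theorem cNu (hS : Continuous S) (hC : Continuous C) (hR : Continuous R) :
    Continuous fun x => Nu (S x) (C x) (R x) := by
  have h := cOm hS hR
  refine continuous_pi fun j => ?_
  unfold Nu
  have h1 := (continuous_pi_iff.1 h) (j + 1)
  have h2 := (continuous_pi_iff.1 h) (j - 1)
  have h3 := (continuous_pi_iff.1 h) j
  fun_prop

theorem cA3 (hS : Continuous S) (hR : Continuous R) : Continuous fun x => A3 (S x) (R x) := by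
  have h1 := cOm hS hR
  have h2 := cK hS hR
  refine continuous_pi fun j => ?_
  unfold A3
  have h3 := (continuous_pi_iff.1 h1) j
  have h4 := (continuous_pi_iff.1 h2) j
  fun_prop

theorem cB3 (hS : Continuous S) (hC : Continuous C) (hR : Continuous R) :
    Continuous fun x => B3 (S x) (C x) (R x) := by
  have h1 := cNu hS hC hR
  have h2 := cMu hS hC hR
  refine continuous_pi fun j => ?_
  unfold B3
  have h3 := (continuous_pi_iff.1 h1) j
  have h4 := (continuous_pi_iff.1 h2) j
  fun_prop

theorem cDK (hS : Continuous S) (hR : Continuous R) (hS' : Continuous S') (hR' : Continuous R') :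
    Continuous fun x => DKk (S x) (R x) (S' x) (R' x) := by
  refine continuous_pi fun j => ?_
  unfold DKk
  fun_prop

theorem cDO (hS : Continuous S) (hR : Continuous R) (hS' : Continuous S') (hR' : Continuous R') :
    Continuous fun x => DOm (S x) (R x) (S' x) (R' x) := by
  refine continuous_pi fun j => ?_
  unfold DOm
  fun_prop

theorem cDM (hS : Continuous S) (hC : Continuous C) (hR : Continuous R) (hS' : Continuous S')
    (hC' : Continuous C') (hR' : Continuous R') :
    Continuous fun x => DMu (S x) (C x) (R x) (S' x) (C' x) (R' x) := by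
  have h := cK hS hR
  have g := cDK hS hR hS' hR'
  refine continuous_pi fun j => ?_
  unfold DMu
  have h1 := (continuous_pi_iff.1 h) (j + 1)
  have h2 := (continuous_pi_iff.1 h) (j - 1)
  have g1 := (continuous_pi_iff.1 g) (j + 1)
  have g2 := (continuous_pi_iff.1 g) (j - 1)
  fun_prop

theorem cDN (hS : Continuous S) (hC : Continuous C) (hR : Continuous R) (hS' : Continuous S')
    (hC' : Continuous C') (hR' : Continuous R') :
    Continuous fun x => DNu (S x) (C x) (R x) (S' x) (C' x) (R' x) := by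
  have h := cOm hS hR
  have g := cDO hS hR hS' hR'
  refine continuous_pi fun j => ?_
  unfold DNu
  have h1 := (continuous_pi_iff.1 h) (j + 1)
  have h2 := (continuous_pi_iff.1 h) (j - 1)
  have h3 := (continuous_pi_iff.1 h) j
  have g1 := (continuous_pi_iff.1 g) (j + 1)
  have g2 := (continuous_pi_iff.1 g) (j - 1)
  have g3 := (continuous_pi_iff.1 g) j
  fun_prop

theorem cDA (hS : Continuous S) (hR : Continuous R) (hS' : Continuous S') (hR' : Continuous R') :
    Continuous fun x => DA3 (S x) (R x) (S' x) (R' x) := by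
  have h1 := cOm hS hR
  have h2 := cK hS hR
  have h3 := cDO hS hR hS' hR'
  have h4 := cDK hS hR hS' hR'
  refine continuous_pi fun j => ?_
  unfold DA3
  have g1 := (continuous_pi_iff.1 h1) j
  have g2 := (continuous_pi_iff.1 h2) j
  have g3 := (continuous_pi_iff.1 h3) j
  have g4 := (continuous_pi_iff.1 h4) j
  fun_prop

theorem cDB (hS : Continuous S) (hC : Continuous C) (hR : Continuous R) (hS' : Continuous S')
    (hC' : Continuous C') (hR' : Continuous R') :
    Continuous fun x => DB3 (S x) (C x) (R x) (S' x) (C' x) (R' x) := by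
  have h1 := cDN hS hC hR hS' hC' hR'
  have h2 := cDM hS hC hR hS' hC' hR'
  refine continuous_pi fun j => ?_
  unfold DB3
  have g1 := (continuous_pi_iff.1 h1) j
  have g2 := (continuous_pi_iff.1 h2) j
  fun_prop

theorem cA4 (hS : Continuous S) (hC : Continuous C) (hR : Continuous R) :
    Continuous fun x => A4 (S x) (C x) (R x) := by
  have c1 : Continuous fun _ : X => (1 : Fin 3 → ℝ) := continuous_const
  have c0 : Continuous fun _ : X => (0 : Fin 3 → ℝ) := continuous_const
  have t := cT hS hC hR c1 c0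
  have g := cG hS hC c1 c0
  have d := cDA hS hR (cdS hC t) (cdR hR g)
  have b := cB3 hS hC hR
  refine continuous_pi fun j => ?_
  unfold A4
  have h1 := (continuous_pi_iff.1 t) j
  have h2 := (continuous_pi_iff.1 d) j
  have h3 := (continuous_pi_iff.1 b) j
  exact h2.sub (h1.mul h3)

theorem cB4 (hS : Continuous S) (hC : Continuous C) (hR : Continuous R) :
    Continuous fun x => B4 (S x) (C x) (R x) := by
  have c1 : Continuous fun _ : X => (1 : Fin 3 → ℝ) := continuous_const
  have c0 : Continuous fun _ : X => (0 : Fin 3 → ℝ) := continuous_const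
  have t := cT hS hC hR c1 c0
  have g := cG hS hC c1 c0
  have d := cDB hS hC hR (cdS hC t) (cdC hS t) (cdR hR g)
  have a := cA3 hS hR
  have b := cB3 hS hC hR
  have t3 := cT hS hC hR a b
  refine continuous_pi fun j => ?_
  unfold B4
  have h1 := (continuous_pi_iff.1 t) j
  have h2 := (continuous_pi_iff.1 d) j
  have h3 := (continuous_pi_iff.1 a) j
  have h4 := (continuous_pi_iff.1 t3) j
  exact (h2.add (h1.mul h3)).sub h4

theorem cA5 (hS : Continuous S) (hC : Continuous C) (hR : Continuous R) :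
    Continuous fun x => A5 (S x) (C x) (R x) := by
  have c0 : Continuous fun _ : X => (0 : Fin 3 → ℝ) := continuous_const
  have k := cK hS hR
  have t := cT hS hC hR c0 k
  have g := cG hS hC c0 k
  have d := cDA hS hR (cdS hC t) (cdR hR g)
  have a := cA3 hS hR
  have b := cB3 hS hC hR
  have t3 := cT hS hC hR a b
  refine continuous_pi fun j => ?_
  unfold A5
  have h1 := (continuous_pi_iff.1 t) j
  have h2 := (continuous_pi_iff.1 d) j
  have h3 := (continuous_pi_iff.1 b) j
  have h4 := (continuous_pi_iff.1 t3) j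
  have h5 := (continuous_pi_iff.1 k) j
  exact (h2.sub (h1.mul h3)).add (h4.mul h5)

theorem cB5 (hS : Continuous S) (hC : Continuous C) (hR : Continuous R) :
    Continuous fun x => B5 (S x) (C x) (R x) := by
  have c0 : Continuous fun _ : X => (0 : Fin 3 → ℝ) := continuous_const
  have k := cK hS hR
  have t := cT hS hC hR c0 k
  have g := cG hS hC c0 k
  have d := cDB hS hC hR (cdS hC t) (cdC hS t) (cdR hR g)
  have a := cA3 hS hR
  have b := cB3 hS hC hR
  have t3 := cT hS hC hR a b
  have g3 := cG hS hC a b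
  have dk := cDK hS hR (cdS hC t3) (cdR hR g3)
  refine continuous_pi fun j => ?_
  unfold B5
  have h1 := (continuous_pi_iff.1 t) j
  have h2 := (continuous_pi_iff.1 d) j
  have h3 := (continuous_pi_iff.1 a) j
  have h4 := (continuous_pi_iff.1 dk) j
  exact (h2.add (h1.mul h3)).sub h4

theorem ccf {A B : X → Fin 3 → ℝ} (hA : Continuous A) (hB : Continuous B) :
    Continuous fun x => cf (A x) (B x) := by
  refine continuous_pi fun j => ?_
  unfold cf
  fin_cases j
  · exact (continuous_pi_iff.1 hA) 0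
  · exact (continuous_pi_iff.1 hA) 1
  · exact (continuous_pi_iff.1 hA) 2
  · exact (continuous_pi_iff.1 hB) 0
  · exact (continuous_pi_iff.1 hB) 1
  · exact (continuous_pi_iff.1 hB) 2

theorem cMM (hS : Continuous S) (hC : Continuous C) (hR : Continuous R) :
    Continuous fun x => MM (S x) (C x) (R x) := by
  have h : ∀ i, Continuous fun x => MM (S x) (C x) (R x) i := by
    intro i
    fin_cases i
    · exact continuous_const
    · exact ccf continuous_const (cK hS hR)
    · exact ccf (cA3 hS hR) (cB3 hS hC hR)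
    · exact ccf (cA4 hS hC hR) (cB4 hS hC hR)
    · exact ccf (cA5 hS hC hR) (cB5 hS hC hR)
    · exact continuous_const
  exact continuous_pi h

end cont

theorem contR {P : V} (h : IsGon P) (j : Fin 3) : ContinuousAt (fun Q : V => Rr Q j) P := by
  have h1 : ContinuousAt (fun Q : V => ‖ed Q j‖) P := by
    unfold ed
    fun_prop
  exact h1.inv₀ (norm_ne_zero_iff.2 (ed_ne h j))

theorem contX {P : V} (h : IsGon P) (j : Fin 3) : ContinuousAt (fun Q : V => Xx Q j) P := by
  have h1 : ContinuousAt (fun Q : V => (ed Q j).re) P := by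
    unfold ed
    fun_prop
  exact h1.mul (contR h j)

theorem contY {P : V} (h : IsGon P) (j : Fin 3) : ContinuousAt (fun Q : V => Yy Q j) P := by
  have h1 : ContinuousAt (fun Q : V => (ed Q j).im) P := by
    unfold ed
    fun_prop
  exact h1.mul (contR h j)

noncomputable def DD (x : (Fin 3 → ℝ) × (Fin 3 → ℝ) × (Fin 3 → ℝ)) : ℝ := (MM x.1 x.2.1 x.2.2).det

theorem cDD : Continuous DD :=
  (cMM continuous_fst (continuous_fst.comp continuous_snd)
      (continuous_snd.comp continuous_snd)).matrix_det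

theorem good_det : ∀ᶠ P : V in 𝓝 P0, (MM (Ss P) (Cc P) (Rr P)).det ≠ 0 := by
  have hS : ContinuousAt (fun P : V => Ss P) P0 := continuousAt_pi.2 fun j =>
    ((contX gon0 j).mul (contY gon0 (j + 1))).sub ((contY gon0 j).mul (contX gon0 (j + 1)))
  have hC : ContinuousAt (fun P : V => Cc P) P0 := continuousAt_pi.2 fun j =>
    ((contX gon0 j).mul (contX gon0 (j + 1))).add ((contY gon0 j).mul (contY gon0 (j + 1)))
  have hR : ContinuousAt (fun P : V => Rr P) P0 := continuousAt_pi.2 fun j => contR gon0 j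
  have h : ContinuousAt (fun P : V => DD (Ss P, Cc P, Rr P)) P0 :=
    cDD.continuousAt.comp' (hS.prodMk (hC.prodMk hR))
  have h2 : DD (Ss P0, Cc P0, Rr P0) ≠ 0 := by
    rw [S0_eq, C0_eq, R0_eq]
    exact det_ne
  filter_upwards [h.eventually_ne h2] with P hP
  exact hP

theorem contdAr {g : V → V} (hg : ∀ i, ContinuousAt (fun P => g P i) P0) :
    ContinuousAt (fun P => dAr P (g P)) P0 := by
  have fr : ∀ i, ContinuousAt (fun P => (g P i).re) P0 := fun i =>
    Complex.continuous_re.continuousAt.comp' (hg i)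
  have fi : ∀ i, ContinuousAt (fun P => (g P i).im) P0 := fun i =>
    Complex.continuous_im.continuousAt.comp' (hg i)
  have pr : ∀ i, ContinuousAt (fun P : V => (P i).re) P0 := fun i =>
    Complex.continuous_re.continuousAt.comp' (continuous_apply i).continuousAt
  have pi : ∀ i, ContinuousAt (fun P : V => (P i).im) P0 := fun i =>
    Complex.continuous_im.continuousAt.comp' (continuous_apply i).continuousAt
  have key : ∀ i j, ContinuousAt (fun P : V => (g P i).re * (P j).im + (P i).re * (g P j).im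
      - (g P i).im * (P j).re - (P i).im * (g P j).re) P0 := fun i j =>
    ((((fr i).mul (pi j)).add ((pr i).mul (fi j))).sub ((fi i).mul (pr j))).sub
      ((pi i).mul (fr j))
  exact ((key 0 1).add (key 1 2)).add (key 2 0)

theorem good_dAr : ∀ᶠ P : V in 𝓝 P0, dAr P (fld P 0 ![1, 0, 0]) ≠ 0 := by
  have hf : ∀ i, ContinuousAt (fun P : V => (fld P 0 ![1, 0, 0]) i) P0 := by
    intro i
    have x1 := contX gon0 i
    have x2 := contX gon0 (i + 1)
    have y1 := contY gon0 i
    have y2 := contY gon0 (i + 1)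
    unfold fld
    refine ContinuousAt.add ?_ (ContinuousAt.mul ?_ continuousAt_const)
    · refine Complex.continuous_ofReal.continuousAt.comp' ?_
      fun_prop
    · refine Complex.continuous_ofReal.continuousAt.comp' ?_
      fun_prop
  exact (contdAr hf).eventually_ne dAr0

end Pool.Agent.X98.PM
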