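import Mathlib

set_option autoImplicit false

/-! Vector fields annihilating a function. -/

open Filter Topology

namespace Pool.Agent.X98.PM

variable {V E : Type*} [NormedAddCommGroup V] [NormedSpace ℝ V] [NormedAddCommGroup E]
  [NormedSpace ℝ E]

theorem line_mem {U : Set V} (hU : IsOpen U) {P : V} (hP : P ∈ U) (w : V) :
    ∀ᶠ s : ℝ in 𝓝 0, P + s • w ∈ U := by
  have hc : ContinuousAt (fun s : ℝ => P + s • w) 0 := by fun_prop
  refine hc.eventually (hU.mem_nhds ?_)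
  simpa using hP

theorem hasD2 {U : Set V} (hU : IsOpen U) {F : V → E} (hF : ContDiffOn ℝ 2 F U) {P : V} (hP : P ∈ U)
    (w : V) : HasDerivAt (fun s : ℝ => fderiv ℝ F (P + s • w)) (fderiv ℝ (fderiv ℝ F) P w) 0 := by
  have hc : ContDiffAt ℝ 2 F P := hF.contDiffAt (hU.mem_nhds hP)
  have h1 : ContDiffAt ℝ 1 (fderiv ℝ F) P := hc.fderiv_right (by norm_num)
  have h2 : HasFDerivAt (fderiv ℝ F) (fderiv ℝ (fderiv ℝ F) P) (P + (0 : ℝ) • w) := by
    rw [zero_smul, add_zero]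
    exact (h1.differentiableAt (by norm_num)).hasFDerivAt
  have h3 : HasDerivAt (fun s : ℝ => P + s • w) w 0 := by
    simpa using ((hasDerivAt_id (0 : ℝ)).smul_const w).const_add P
  exact h2.comp_hasDerivAt (0 : ℝ) h3

theorem symm2 {U : Set V} (hU : IsOpen U) {F : V → E} (hF : ContDiffOn ℝ 2 F U) {P : V} (hP : P ∈ U)
    (x y : V) : fderiv ℝ (fderiv ℝ F) P x y = fderiv ℝ (fderiv ℝ F) P y x := by
  have hc : ContDiffAt ℝ 2 F P := hF.contDiffAt (hU.mem_nhds hP)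
  exact (hc.isSymmSndFDerivAt (by simp [minSmoothness_of_isRCLikeNormedField])).eq x y

/-- If `dF(Y) = 0` on `U`, then `D²F(w, Y) + dF(D_w Y) = 0`. -/
theorem kill_diff {U : Set V} (hU : IsOpen U) {F : V → E} (hF : ContDiffOn ℝ 2 F U) {Y : V → V}
    (hY : ∀ P ∈ U, fderiv ℝ F P (Y P) = 0) {P : V} (hP : P ∈ U) {w dY : V}
    (h : HasDerivAt (fun s : ℝ => Y (P + s • w)) dY 0) :
    fderiv ℝ (fderiv ℝ F) P w (Y P) + fderiv ℝ F P dY = 0 := by
  have h1 := (hasD2 hU hF hP w).clm_apply h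
  have h2 : HasDerivAt (fun _ : ℝ => (0 : E)) 0 0 := hasDerivAt_const _ _
  have h3 : (fun s : ℝ => (fderiv ℝ F (P + s • w)) (Y (P + s • w))) =ᶠ[𝓝 0] fun _ => (0 : E) := by
    filter_upwards [line_mem hU hP w] with s hs
    exact hY _ hs
  have h4 := (h2.congr_of_eventuallyEq h3).unique h1
  rw [zero_smul, add_zero] at h4
  exact h4.symm

theorem kill_br {U : Set V} (hU : IsOpen U) {F : V → E} (hF : ContDiffOn ℝ 2 F U) {X Y : V → V}
    (hX : ∀ P ∈ U, fderiv ℝ F P (X P) = 0) (hY : ∀ P ∈ U, fderiv ℝ F P (Y P) = 0) {P : V}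
    (hP : P ∈ U) {dX dY : V} (h1 : HasDerivAt (fun s : ℝ => Y (P + s • X P)) dY 0)
    (h2 : HasDerivAt (fun s : ℝ => X (P + s • Y P)) dX 0) : fderiv ℝ F P (dY - dX) = 0 := by
  have e1 := kill_diff hU hF hY hP h1
  have e2 := kill_diff hU hF hX hP h2
  rw [symm2 hU hF hP] at e2
  rw [map_sub, sub_eq_zero]
  have := e1.trans e2.symm
  exact add_left_cancel this

/-- If `F (P + t u) = F (P + t v)` for small `t > 0`, then `dF u = dF v` and
`D²F(u, u) = D²F(v, v)` at `P`. -/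
theorem second {U : Set V} (hU : IsOpen U) {F : V → E} (hF : ContDiffOn ℝ 2 F U) {P : V} (hP : P ∈ U)
    {u v : V} (h : ∀ᶠ t : ℝ in 𝓝[>] 0, F (P + t • u) = F (P + t • v)) :
    fderiv ℝ F P u = fderiv ℝ F P v ∧
      fderiv ℝ (fderiv ℝ F) P u u = fderiv ℝ (fderiv ℝ F) P v v := by
  have hline : ∀ (w : V) (t : ℝ), P + t • w ∈ U →
      HasDerivAt (fun s : ℝ => F (P + s • w)) (fderiv ℝ F (P + t • w) w) t := by
    intro w t ht
    have hd : HasFDerivAt F (fderiv ℝ F (P + t • w)) (P + t • w) :=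
      ((hF.contDiffAt (hU.mem_nhds ht)).differentiableAt (by norm_num)).hasFDerivAt
    have h3 : HasDerivAt (fun s : ℝ => P + s • w) w t := by
      simpa using ((hasDerivAt_id t).smul_const w).const_add P
    exact hd.comp_hasDerivAt t h3
  set g1 : ℝ → E := fun t => fderiv ℝ F (P + t • u) u - fderiv ℝ F (P + t • v) v with hg1
  have hz : ∀ᶠ t : ℝ in 𝓝[>] 0, g1 t = 0 := by
    have ha : ∀ᶠ t : ℝ in 𝓝[>] 0, P + t • u ∈ U := (line_mem hU hP u).filter_mono nhdsWithin_le_nhds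
    have hb : ∀ᶠ t : ℝ in 𝓝[>] 0, P + t • v ∈ U := (line_mem hU hP v).filter_mono nhdsWithin_le_nhds
    obtain ⟨ε, hε, hh⟩ := mem_nhdsGT_iff_exists_Ioo_subset.1 h
    have hm : Set.Ioo (0 : ℝ) ε ∈ 𝓝[>] (0 : ℝ) := Ioo_mem_nhdsGT hε
    filter_upwards [ha, hb, hm] with t h1 h2 h3
    have d := (hline u t h1).sub (hline v t h2)
    have d2 : HasDerivAt (fun _ : ℝ => (0 : E)) 0 t := hasDerivAt_const _ _
    have e : (fun s : ℝ => F (P + s • u) - F (P + s • v)) =ᶠ[𝓝 t] fun _ => (0 : E) := by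
      filter_upwards [isOpen_Ioo.mem_nhds h3] with s hs
      exact sub_eq_zero.2 (hh hs)
    exact d.unique (d2.congr_of_eventuallyEq e)
  have hD : HasDerivAt g1 (fderiv ℝ (fderiv ℝ F) P u u - fderiv ℝ (fderiv ℝ F) P v v) 0 := by
    have a := (hasD2 hU hF hP u).clm_apply (hasDerivAt_const (0 : ℝ) u)
    have b := (hasD2 hU hF hP v).clm_apply (hasDerivAt_const (0 : ℝ) v)
    refine (a.sub b).congr_deriv ?_
    simp
  have h0 : g1 0 = 0 := by
    have t1 : Tendsto g1 (𝓝[>] 0) (𝓝 (g1 0)) := hD.continuousAt.tendsto.mono_left nhdsWithin_le_nhds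
    have t2 : Tendsto g1 (𝓝[>] 0) (𝓝 0) := tendsto_const_nhds.congr' (by
      filter_upwards [hz] with t ht
      exact ht.symm)
    exact tendsto_nhds_unique t1 t2
  refine ⟨?_, ?_⟩
  · have := h0
    simp only [hg1, zero_smul, add_zero] at this
    exact sub_eq_zero.1 this
  · have w1 : HasDerivWithinAt g1 (fderiv ℝ (fderiv ℝ F) P u u - fderiv ℝ (fderiv ℝ F) P v v)
        (Set.Ioi 0) 0 := hD.hasDerivWithinAt
    have w2 : HasDerivWithinAt g1 0 (Set.Ioi 0) 0 := by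
      refine (hasDerivWithinAt_const (0 : ℝ) (Set.Ioi 0) (0 : E)).congr_of_eventuallyEq ?_ h0
      filter_upwards [hz] with t ht
      exact ht
    have := (uniqueDiffWithinAt_Ioi (0 : ℝ)).eq_deriv _ w1 w2
    exact sub_eq_zero.1 this

end Pool.Agent.X98.PM
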