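import Pool.Agent.X98.PM.Fld
import Pool.Agent.X98.PM.Kill

set_option autoImplicit false

/-! Five vector fields on triangles which annihilate every invariant function. -/

open Filter Topology

namespace Pool.Agent.X98.PM

/-! ### scalars and their derivatives -/

def Kk (S R : Fin 3 → ℝ) (j : Fin 3) : ℝ := R j * (S (j - 1) - S j)
def Om (S R : Fin 3 → ℝ) (j : Fin 3) : ℝ := R j * (S j + S (j - 1))
def Mu (S C R : Fin 3 → ℝ) (j : Fin 3) : ℝ :=
  R j * (C j * Kk S R (j + 1) - C (j - 1) * Kk S R (j - 1))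
def Nu (S C R : Fin 3 → ℝ) (j : Fin 3) : ℝ :=
  -(R j ^ 2 * (C j - C (j - 1)) * (S (j - 1) - S j))
    + R j * (C (j - 1) * (Om S R j - Om S R (j - 1)) - C j * (Om S R (j + 1) - Om S R j))
def A3 (S R : Fin 3 → ℝ) (j : Fin 3) : ℝ := -(Om S R j * Kk S R j)
def B3 (S C R : Fin 3 → ℝ) (j : Fin 3) : ℝ := Nu S C R j - Mu S C R j

def DKk (S R S' R' : Fin 3 → ℝ) (j : Fin 3) : ℝ := R' j * (S (j - 1) - S j) + R j * (S' (j - 1) - S' j)
def DOm (S R S' R' : Fin 3 → ℝ) (j : Fin 3) : ℝ := R' j * (S j + S (j - 1)) + R j * (S' j + S' (j - 1))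
def DMu (S C R S' C' R' : Fin 3 → ℝ) (j : Fin 3) : ℝ :=
  R' j * (C j * Kk S R (j + 1) - C (j - 1) * Kk S R (j - 1))
    + R j * ((C' j * Kk S R (j + 1) + C j * DKk S R S' R' (j + 1))
      - (C' (j - 1) * Kk S R (j - 1) + C (j - 1) * DKk S R S' R' (j - 1)))
def DNu (S C R S' C' R' : Fin 3 → ℝ) (j : Fin 3) : ℝ :=
  -(2 * R j * R' j * (C j - C (j - 1)) * (S (j - 1) - S j)
      + R j ^ 2 * ((C' j - C' (j - 1)) * (S (j - 1) - S j) + (C j - C (j - 1)) * (S' (j - 1) - S' j)))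
    + (R' j * (C (j - 1) * (Om S R j - Om S R (j - 1)) - C j * (Om S R (j + 1) - Om S R j))
      + R j * ((C' (j - 1) * (Om S R j - Om S R (j - 1))
          + C (j - 1) * (DOm S R S' R' j - DOm S R S' R' (j - 1)))
        - (C' j * (Om S R (j + 1) - Om S R j) + C j * (DOm S R S' R' (j + 1) - DOm S R S' R' j))))
def DA3 (S R S' R' : Fin 3 → ℝ) (j : Fin 3) : ℝ :=
  -(DOm S R S' R' j * Kk S R j + Om S R j * DKk S R S' R' j)
def DB3 (S C R S' C' R' : Fin 3 → ℝ) (j : Fin 3) : ℝ :=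
  DNu S C R S' C' R' j - DMu S C R S' C' R' j

section deriv

variable {S C R : ℝ → Fin 3 → ℝ} {S' C' R' : Fin 3 → ℝ}

theorem hKk (hS : ∀ j, HasDerivAt (fun s => S s j) (S' j) 0)
    (hR : ∀ j, HasDerivAt (fun s => R s j) (R' j) 0) (j : Fin 3) :
    HasDerivAt (fun s => Kk (S s) (R s) j) (DKk (S 0) (R 0) S' R' j) 0 := by
  refine ((hR j).mul ((hS (j - 1)).sub (hS j))).congr_deriv ?_
  unfold DKk
  simp only [Pi.sub_apply]

theorem hOm (hS : ∀ j, HasDerivAt (fun s => S s j) (S' j) 0)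
    (hR : ∀ j, HasDerivAt (fun s => R s j) (R' j) 0) (j : Fin 3) :
    HasDerivAt (fun s => Om (S s) (R s) j) (DOm (S 0) (R 0) S' R' j) 0 := by
  refine ((hR j).mul ((hS j).add (hS (j - 1)))).congr_deriv ?_
  unfold DOm
  simp only [Pi.add_apply]

theorem hMu (hS : ∀ j, HasDerivAt (fun s => S s j) (S' j) 0)
    (hC : ∀ j, HasDerivAt (fun s => C s j) (C' j) 0)
    (hR : ∀ j, HasDerivAt (fun s => R s j) (R' j) 0) (j : Fin 3) :
    HasDerivAt (fun s => Mu (S s) (C s) (R s) j) (DMu (S 0) (C 0) (R 0) S' C' R' j) 0 := by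
  refine ((hR j).mul (((hC j).mul (hKk hS hR (j + 1))).sub
    ((hC (j - 1)).mul (hKk hS hR (j - 1))))).congr_deriv ?_
  unfold DMu
  simp only [Pi.mul_apply, Pi.sub_apply]

theorem hNu (hS : ∀ j, HasDerivAt (fun s => S s j) (S' j) 0)
    (hC : ∀ j, HasDerivAt (fun s => C s j) (C' j) 0)
    (hR : ∀ j, HasDerivAt (fun s => R s j) (R' j) 0) (j : Fin 3) :
    HasDerivAt (fun s => Nu (S s) (C s) (R s) j) (DNu (S 0) (C 0) (R 0) S' C' R' j) 0 := by
  refine ((((((hR j).fun_pow 2).mul ((hC j).sub (hC (j - 1)))).mul ((hS (j - 1)).sub (hS j))).neg).add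
    ((hR j).mul (((hC (j - 1)).mul ((hOm hS hR j).sub (hOm hS hR (j - 1)))).sub
      ((hC j).mul ((hOm hS hR (j + 1)).sub (hOm hS hR j)))))).congr_deriv ?_
  unfold DNu
  push_cast
  simp only [Pi.mul_apply, Pi.sub_apply]
  ring

theorem hA3 (hS : ∀ j, HasDerivAt (fun s => S s j) (S' j) 0)
    (hR : ∀ j, HasDerivAt (fun s => R s j) (R' j) 0) (j : Fin 3) :
    HasDerivAt (fun s => A3 (S s) (R s) j) (DA3 (S 0) (R 0) S' R' j) 0 := by
  refine (((hOm hS hR j).mul (hKk hS hR j)).neg).congr_deriv ?_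
  unfold DA3; ring

theorem hB3 (hS : ∀ j, HasDerivAt (fun s => S s j) (S' j) 0)
    (hC : ∀ j, HasDerivAt (fun s => C s j) (C' j) 0)
    (hR : ∀ j, HasDerivAt (fun s => R s j) (R' j) 0) (j : Fin 3) :
    HasDerivAt (fun s => B3 (S s) (C s) (R s) j) (DB3 (S 0) (C 0) (R 0) S' C' R' j) 0 :=
  (hNu hS hC hR j).sub (hMu hS hC hR j)

end deriv

/-! ### the five fields -/

/-- coefficients of the fourth and fifth field -/
def A4 (S C R : Fin 3 → ℝ) (j : Fin 3) : ℝ :=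
  DA3 S R (dSs C (TT S C R 1 0)) (dRr R (GG S C 1 0)) j - TT S C R 1 0 j * B3 S C R j
def B4 (S C R : Fin 3 → ℝ) (j : Fin 3) : ℝ :=
  DB3 S C R (dSs C (TT S C R 1 0)) (dCc S (TT S C R 1 0)) (dRr R (GG S C 1 0)) j
    + TT S C R 1 0 j * A3 S R j - TT S C R (A3 S R) (B3 S C R) j
def A5 (S C R : Fin 3 → ℝ) (j : Fin 3) : ℝ :=
  DA3 S R (dSs C (TT S C R 0 (Kk S R))) (dRr R (GG S C 0 (Kk S R))) j
    - TT S C R 0 (Kk S R) j * B3 S C R j + TT S C R (A3 S R) (B3 S C R) j * Kk S R j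
def B5 (S C R : Fin 3 → ℝ) (j : Fin 3) : ℝ :=
  DB3 S C R (dSs C (TT S C R 0 (Kk S R))) (dCc S (TT S C R 0 (Kk S R)))
      (dRr R (GG S C 0 (Kk S R))) j
    + TT S C R 0 (Kk S R) j * A3 S R j
    - DKk S R (dSs C (TT S C R (A3 S R) (B3 S C R))) (dRr R (GG S C (A3 S R) (B3 S C R))) j

noncomputable def W1 (P : V) : V := fld P 1 0
noncomputable def W2 (P : V) : V := fld P 0 (Kk (Ss P) (Rr P))
noncomputable def W3 (P : V) : V := fld P (A3 (Ss P) (Rr P)) (B3 (Ss P) (Cc P) (Rr P))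
noncomputable def W4 (P : V) : V := fld P (A4 (Ss P) (Cc P) (Rr P)) (B4 (Ss P) (Cc P) (Rr P))
noncomputable def W5 (P : V) : V := fld P (A5 (Ss P) (Cc P) (Rr P)) (B5 (Ss P) (Cc P) (Rr P))

theorem TT10 (S C R : Fin 3 → ℝ) : TT S C R 1 0 = Om S R := by
  funext j
  unfold TT Om
  simp only [Pi.one_apply, Pi.zero_apply]
  ring

theorem TT0K (S C R : Fin 3 → ℝ) : TT S C R 0 (Kk S R) = Mu S C R := by
  funext j
  unfold TT Mu
  simp only [Pi.zero_apply]
  ring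

theorem DK10 (S C R : Fin 3 → ℝ) (j : Fin 3) :
    DKk S R (dSs C (Om S R)) (dRr R (GG S C 1 0)) j = Nu S C R j := by
  unfold DKk Nu dSs dRr GG
  rw [sub_add_cancel]
  simp only [Pi.one_apply, Pi.zero_apply]
  ring

/-- directional derivatives of the fields -/
theorem dW1 {P : V} (h : IsGon P) (w : V) :
    HasDerivAt (fun s : ℝ => W1 (P + s • w)) (fld P 0 (Tt P w)) 0 := by
  refine (dfld h w (A := fun _ => 1) (B := fun _ => 0) (A' := 0) (B' := 0)
    (fun j => hasDerivAt_const _ _) (fun j => hasDerivAt_const _ _)).congr_deriv ?_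
  congr 1
  · funext j; simp
  · funext j; simp

theorem dW2 {P : V} (h : IsGon P) (w : V) :
    HasDerivAt (fun s : ℝ => W2 (P + s • w))
      (fld P (fun j => -(Tt P w j * Kk (Ss P) (Rr P) j))
        (DKk (Ss P) (Rr P) (dSs (Cc P) (Tt P w)) (dRr (Rr P) (Gg P w)))) 0 := by
  refine (dfld h w (A := fun _ => 0) (B := fun s => Kk (Ss (P + s • w)) (Rr (P + s • w))) (A' := 0)
    (fun j => hasDerivAt_const _ _) (hKk (dS h w) (dR' h w))).congr_deriv ?_
  congr 1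
  · funext j; simp
  · funext j; simp

theorem dW3 {P : V} (h : IsGon P) (w : V) :
    HasDerivAt (fun s : ℝ => W3 (P + s • w))
      (fld P (fun j => DA3 (Ss P) (Rr P) (dSs (Cc P) (Tt P w)) (dRr (Rr P) (Gg P w)) j
          - Tt P w j * B3 (Ss P) (Cc P) (Rr P) j)
        (fun j => DB3 (Ss P) (Cc P) (Rr P) (dSs (Cc P) (Tt P w)) (dCc (Ss P) (Tt P w))
          (dRr (Rr P) (Gg P w)) j + Tt P w j * A3 (Ss P) (Rr P) j)) 0 := by
  refine (dfld h w (A := fun s => A3 (Ss (P + s • w)) (Rr (P + s • w)))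
    (B := fun s => B3 (Ss (P + s • w)) (Cc (P + s • w)) (Rr (P + s • w)))
    (hA3 (dS h w) (dR' h w)) (hB3 (dS h w) (dC h w) (dR' h w))).congr_deriv ?_
  congr 1
  · funext j; simp
  · funext j; simp

/-- The directions `u`, `v` of `q_t`, `r_t`. -/
noncomputable def uu (P : V) : V := fun i => unit (P i - P (i - 1))
noncomputable def vv (P : V) : V := fun i => unit (P i - P (i + 1))

theorem vv_eq (P : V) (i : Fin 3) : vv P i = -unit (ed P (i + 1)) := by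
  unfold vv ed unit
  rw [add_sub_cancel_right, ← neg_div, neg_sub, norm_sub_rev]

theorem uu_sub (P : V) : uu P - vv P = W1 P := by
  funext i
  rw [Pi.sub_apply, vv_eq, sub_neg_eq_add]
  show unit (ed P i) + _ = _
  rw [unit_ed, unit_ed]
  unfold W1 fld
  simp
  ring

theorem Tt_H (P : V) : Tt P (uu P + vv P) = Kk (Ss P) (Rr P) := by
  funext j
  have e : ∀ i, (uu P + vv P) i = ((Xx P i - Xx P (i + 1) : ℝ) : ℂ)
      + ((Yy P i - Yy P (i + 1) : ℝ) : ℂ) * Complex.I := by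
    intro i
    rw [Pi.add_apply, vv_eq]
    show unit (ed P i) + _ = _
    rw [unit_ed, unit_ed]
    push_cast
    ring
  have h : ed (uu P + vv P) j = (((Xx P j - Xx P (j + 1)) - (Xx P (j - 1) - Xx P j) : ℝ) : ℂ)
      + (((Yy P j - Yy P (j + 1)) - (Yy P (j - 1) - Yy P j) : ℝ) : ℂ) * Complex.I := by
    unfold ed
    rw [e, e, sub_add_cancel]
    push_cast
    ring
  have h1 : (ed (uu P + vv P) j).re = (Xx P j - Xx P (j + 1)) - (Xx P (j - 1) - Xx P j) := by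
    rw [h]; simp
  have h2 : (ed (uu P + vv P) j).im = (Yy P j - Yy P (j + 1)) - (Yy P (j - 1) - Yy P j) := by
    rw [h]; simp
  unfold Tt
  rw [h1, h2]
  unfold Kk Ss
  rw [sub_add_cancel]
  ring

/-- `F` is invariant under all `f_t`, infinitesimally. -/
structure Inv {E : Type*} [NormedAddCommGroup E] [NormedSpace ℝ E] (U : Set V) (F : V → E) : Prop where
  isOpen : IsOpen U
  gon : ∀ P ∈ U, IsGon P
  smooth : ContDiffOn ℝ 2 F U
  inv : ∀ P ∈ U, ∀ᶠ t : ℝ in 𝓝[>] 0, F (P + t • uu P) = F (P + t • vv P)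

variable {E : Type*} [NormedAddCommGroup E] [NormedSpace ℝ E] {U : Set V} {F : V → E}

theorem k1 (h : Inv U F) : ∀ P ∈ U, fderiv ℝ F P (W1 P) = 0 := by
  intro P hP
  rw [← uu_sub, map_sub, (second h.isOpen h.smooth hP (h.inv P hP)).1, sub_self]

theorem k2 (h : Inv U F) : ∀ P ∈ U, fderiv ℝ F P (W2 P) = 0 := by
  intro P hP
  have h1 := kill_diff h.isOpen h.smooth (k1 h) hP (dW1 (h.gon P hP) (uu P + vv P))
  rw [Tt_H, ← uu_sub] at h1
  have h2 := (second h.isOpen h.smooth hP (h.inv P hP)).2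
  have h3 : fderiv ℝ (fderiv ℝ F) P (uu P + vv P) (uu P - vv P) = 0 := by
    rw [map_add, map_sub, add_apply, add_apply, h2,
      symm2 h.isOpen h.smooth hP (vv P) (uu P)]
    abel
  rw [h3, zero_add] at h1
  exact h1

theorem k3 (h : Inv U F) : ∀ P ∈ U, fderiv ℝ F P (W3 P) = 0 := by
  intro P hP
  have hg := h.gon P hP
  have h1 := kill_br h.isOpen h.smooth (k1 h) (k2 h) hP (dW2 hg (W1 P)) (dW1 hg (W2 P))
  have e : fld P (fun j => -(Tt P (W1 P) j * Kk (Ss P) (Rr P) j))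
        (DKk (Ss P) (Rr P) (dSs (Cc P) (Tt P (W1 P))) (dRr (Rr P) (Gg P (W1 P))))
      - fld P 0 (Tt P (W2 P)) = W3 P := by
    unfold W1 W2 W3
    rw [Tt_fld, Gg_fld, Tt_fld, fld_sub, TT10, TT0K]
    congr 1
    · funext j
      unfold A3
      simp
    · funext j
      rw [DK10]
      rfl
  rwa [e] at h1

theorem k4 (h : Inv U F) : ∀ P ∈ U, fderiv ℝ F P (W4 P) = 0 := by
  intro P hP
  have hg := h.gon P hP
  have h1 := kill_br h.isOpen h.smooth (k1 h) (k3 h) hP (dW3 hg (W1 P)) (dW1 hg (W3 P))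
  have e : fld P (fun j => DA3 (Ss P) (Rr P) (dSs (Cc P) (Tt P (W1 P))) (dRr (Rr P) (Gg P (W1 P))) j
          - Tt P (W1 P) j * B3 (Ss P) (Cc P) (Rr P) j)
        (fun j => DB3 (Ss P) (Cc P) (Rr P) (dSs (Cc P) (Tt P (W1 P))) (dCc (Ss P) (Tt P (W1 P)))
          (dRr (Rr P) (Gg P (W1 P))) j + Tt P (W1 P) j * A3 (Ss P) (Rr P) j)
      - fld P 0 (Tt P (W3 P)) = W4 P := by
    unfold W1 W3 W4
    rw [Tt_fld, Gg_fld, Tt_fld, fld_sub]
    congr 1
    funext j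
    unfold A4
    simp
  rwa [e] at h1

theorem k5 (h : Inv U F) : ∀ P ∈ U, fderiv ℝ F P (W5 P) = 0 := by
  intro P hP
  have hg := h.gon P hP
  have h1 := kill_br h.isOpen h.smooth (k2 h) (k3 h) hP (dW3 hg (W2 P)) (dW2 hg (W3 P))
  have e : fld P (fun j => DA3 (Ss P) (Rr P) (dSs (Cc P) (Tt P (W2 P))) (dRr (Rr P) (Gg P (W2 P))) j
          - Tt P (W2 P) j * B3 (Ss P) (Cc P) (Rr P) j)
        (fun j => DB3 (Ss P) (Cc P) (Rr P) (dSs (Cc P) (Tt P (W2 P))) (dCc (Ss P) (Tt P (W2 P)))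
          (dRr (Rr P) (Gg P (W2 P))) j + Tt P (W2 P) j * A3 (Ss P) (Rr P) j)
      - fld P (fun j => -(Tt P (W3 P) j * Kk (Ss P) (Rr P) j))
        (DKk (Ss P) (Rr P) (dSs (Cc P) (Tt P (W3 P))) (dRr (Rr P) (Gg P (W3 P)))) = W5 P := by
    unfold W2 W3 W5
    rw [Tt_fld, Gg_fld, Tt_fld, Gg_fld, fld_sub]
    congr 1
    · funext j
      unfold A5
      ring
  rwa [e] at h1

end Pool.Agent.X98.PM
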