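import Pool.Agent.X98.PM.Def

set_option autoImplicit false

/-! Directional derivatives of the unit vectors along the edges of a triangle. -/

open Filter Topology

namespace Pool.Agent.X98.PM

abbrev V := Fin 3 → ℂ

def ed (P : V) (j : Fin 3) : ℂ := P j - P (j - 1)

noncomputable def Rr (P : V) (j : Fin 3) : ℝ := ‖ed P j‖⁻¹
noncomputable def Xx (P : V) (j : Fin 3) : ℝ := (ed P j).re * Rr P j
noncomputable def Yy (P : V) (j : Fin 3) : ℝ := (ed P j).im * Rr P j

noncomputable def Tt (P w : V) (j : Fin 3) : ℝ :=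
  Rr P j * (Xx P j * (ed w j).im - Yy P j * (ed w j).re)
noncomputable def Gg (P w : V) (j : Fin 3) : ℝ :=
  Xx P j * (ed w j).re + Yy P j * (ed w j).im

theorem ed_add (P w : V) (s : ℝ) (j : Fin 3) : ed (P + s • w) j = ed P j + s * ed w j := by
  unfold ed
  simp only [Pi.add_apply, Pi.smul_apply, Complex.real_smul]
  ring

theorem ed_ne {P : V} (h : IsGon P) (j : Fin 3) : ed P j ≠ 0 := by
  have := h (j - 1)
  rw [sub_add_cancel] at this
  exact sub_ne_zero.2 this.symm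

theorem unit_ed (P : V) (j : Fin 3) : unit (ed P j) = (Xx P j : ℂ) + (Yy P j : ℂ) * Complex.I := by
  unfold unit Xx Yy Rr
  rw [div_eq_mul_inv]
  push_cast
  linear_combination (-(‖ed P j‖ : ℂ)⁻¹) * Complex.re_add_im (ed P j)

theorem sqn {P : V} (h : IsGon P) (j : Fin 3) : Xx P j ^ 2 + Yy P j ^ 2 = 1 := by
  have h1 : ‖ed P j‖ ≠ 0 := norm_ne_zero_iff.2 (ed_ne h j)
  have h2 : ‖ed P j‖ ^ 2 = (ed P j).re * (ed P j).re + (ed P j).im * (ed P j).im := by
    rw [Complex.sq_norm, Complex.normSq_apply]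
  unfold Xx Yy Rr
  field_simp
  linarith [sq (ed P j).re, sq (ed P j).im]

/-- derivative of the inverse of the length -/
theorem dR {P : V} (h : IsGon P) (w : V) (j : Fin 3) :
    HasDerivAt (fun s : ℝ => Rr (P + s • w) j) (-(Rr P j ^ 2 * Gg P w j)) 0 := by
  have h1 : ‖ed P j‖ ≠ 0 := norm_ne_zero_iff.2 (ed_ne h j)
  have h2 : ‖ed P j‖ ^ 2 = (ed P j).re ^ 2 + (ed P j).im ^ 2 := by
    rw [Complex.sq_norm, Complex.normSq_apply]; ring
  have hf : ∀ s : ℝ, Rr (P + s • w) j = (√(((ed P j).re + s * (ed w j).re) ^ 2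
      + ((ed P j).im + s * (ed w j).im) ^ 2))⁻¹ := by
    intro s
    unfold Rr
    rw [ed_add]
    congr 1
    rw [← Real.sqrt_sq (norm_nonneg (ed P j + s * ed w j)), Complex.sq_norm, Complex.normSq_apply]
    congr 1
    simp
    ring
  have hn : √(((ed P j).re + (0 : ℝ) * (ed w j).re) ^ 2 + ((ed P j).im + (0 : ℝ) * (ed w j).im) ^ 2)
      = ‖ed P j‖ := by
    rw [zero_mul, zero_mul, add_zero, add_zero, ← h2, Real.sqrt_sq (norm_nonneg _)]
  have d1 : HasDerivAt (fun s : ℝ => ((ed P j).re + s * (ed w j).re) ^ 2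
      + ((ed P j).im + s * (ed w j).im) ^ 2)
      (2 * ((ed P j).re * (ed w j).re + (ed P j).im * (ed w j).im)) 0 := by
    have a1 : HasDerivAt (fun s : ℝ => (ed P j).re + s * (ed w j).re) ((ed w j).re) 0 := by
      simpa using ((hasDerivAt_id (0 : ℝ)).mul_const (ed w j).re).const_add (ed P j).re
    have a2 : HasDerivAt (fun s : ℝ => (ed P j).im + s * (ed w j).im) ((ed w j).im) 0 := by
      simpa using ((hasDerivAt_id (0 : ℝ)).mul_const (ed w j).im).const_add (ed P j).im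
    refine ((a1.fun_pow 2).add (a2.fun_pow 2)).congr_deriv ?_
    push_cast
    ring
  have hne : ((ed P j).re + (0 : ℝ) * (ed w j).re) ^ 2 + ((ed P j).im + (0 : ℝ) * (ed w j).im) ^ 2 ≠ 0 := by
    rw [zero_mul, zero_mul, add_zero, add_zero, ← h2]
    exact pow_ne_zero 2 h1
  have d2 := (d1.sqrt hne).fun_inv (by rw [hn]; exact h1)
  refine (d2.congr_of_eventuallyEq (Eventually.of_forall hf)).congr_deriv ?_
  rw [hn]
  unfold Rr Gg Xx Yy Rr
  field_simp

theorem dX {P : V} (h : IsGon P) (w : V) (j : Fin 3) :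
    HasDerivAt (fun s : ℝ => Xx (P + s • w) j) (-(Yy P j * Tt P w j)) 0 := by
  have h1 : ‖ed P j‖ ≠ 0 := norm_ne_zero_iff.2 (ed_ne h j)
  have h2 : ‖ed P j‖ ^ 2 = (ed P j).re ^ 2 + (ed P j).im ^ 2 := by
    rw [Complex.sq_norm, Complex.normSq_apply]; ring
  have a1 : HasDerivAt (fun s : ℝ => (ed (P + s • w) j).re) ((ed w j).re) 0 := by
    have : (fun s : ℝ => (ed (P + s • w) j).re) = fun s : ℝ => (ed P j).re + s * (ed w j).re := by
      funext s; rw [ed_add]; simp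
    rw [this]
    simpa using ((hasDerivAt_id (0 : ℝ)).mul_const (ed w j).re).const_add (ed P j).re
  refine (a1.mul (dR h w j)).congr_deriv ?_
  simp only [zero_smul, add_zero]
  unfold Tt Yy Xx Gg Xx Yy Rr
  field_simp
  rw [h2]
  ring

theorem dY {P : V} (h : IsGon P) (w : V) (j : Fin 3) :
    HasDerivAt (fun s : ℝ => Yy (P + s • w) j) (Xx P j * Tt P w j) 0 := by
  have h1 : ‖ed P j‖ ≠ 0 := norm_ne_zero_iff.2 (ed_ne h j)
  have h2 : ‖ed P j‖ ^ 2 = (ed P j).re ^ 2 + (ed P j).im ^ 2 := by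
    rw [Complex.sq_norm, Complex.normSq_apply]; ring
  have a1 : HasDerivAt (fun s : ℝ => (ed (P + s • w) j).im) ((ed w j).im) 0 := by
    have : (fun s : ℝ => (ed (P + s • w) j).im) = fun s : ℝ => (ed P j).im + s * (ed w j).im := by
      funext s; rw [ed_add]; simp
    rw [this]
    simpa using ((hasDerivAt_id (0 : ℝ)).mul_const (ed w j).im).const_add (ed P j).im
  refine (a1.mul (dR h w j)).congr_deriv ?_
  simp only [zero_smul, add_zero]
  unfold Tt Yy Xx Gg Xx Yy Rr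
  field_simp
  rw [h2]
  ring

/-! ### the scalars -/

noncomputable def Ss (P : V) (j : Fin 3) : ℝ := Xx P j * Yy P (j + 1) - Yy P j * Xx P (j + 1)
noncomputable def Cc (P : V) (j : Fin 3) : ℝ := Xx P j * Xx P (j + 1) + Yy P j * Yy P (j + 1)

def dSs (C τ : Fin 3 → ℝ) (j : Fin 3) : ℝ := C j * (τ (j + 1) - τ j)
def dCc (S τ : Fin 3 → ℝ) (j : Fin 3) : ℝ := -(S j * (τ (j + 1) - τ j))
def dRr (R γ : Fin 3 → ℝ) (j : Fin 3) : ℝ := -(R j ^ 2 * γ j)

theorem dR' {P : V} (h : IsGon P) (w : V) (j : Fin 3) :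
    HasDerivAt (fun s : ℝ => Rr (P + s • w) j) (dRr (Rr P) (Gg P w) j) 0 := dR h w j

theorem dS {P : V} (h : IsGon P) (w : V) (j : Fin 3) :
    HasDerivAt (fun s : ℝ => Ss (P + s • w) j) (dSs (Cc P) (Tt P w) j) 0 := by
  refine (((dX h w j).mul (dY h w (j + 1))).sub ((dY h w j).mul (dX h w (j + 1)))).congr_deriv ?_
  simp only [zero_smul, add_zero]
  unfold dSs Cc
  ring

theorem dC {P : V} (h : IsGon P) (w : V) (j : Fin 3) :
    HasDerivAt (fun s : ℝ => Cc (P + s • w) j) (dCc (Ss P) (Tt P w) j) 0 := by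
  refine (((dX h w j).mul (dX h w (j + 1))).add ((dY h w j).mul (dY h w (j + 1)))).congr_deriv ?_
  simp only [zero_smul, add_zero]
  unfold dCc Ss
  ring

/-! ### fields -/

noncomputable def fld (P : V) (A B : Fin 3 → ℝ) : V := fun i =>
  ((Xx P i * A i - Yy P i * B i + (Xx P (i + 1) * A (i + 1) - Yy P (i + 1) * B (i + 1)) : ℝ) : ℂ)
    + ((Xx P i * B i + Yy P i * A i + (Xx P (i + 1) * B (i + 1) + Yy P (i + 1) * A (i + 1)) : ℝ) : ℂ)
      * Complex.I

theorem dfld {P : V} (h : IsGon P) (w : V) {A B : ℝ → Fin 3 → ℝ} {A' B' : Fin 3 → ℝ}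
    (hA : ∀ j, HasDerivAt (fun s => A s j) (A' j) 0) (hB : ∀ j, HasDerivAt (fun s => B s j) (B' j) 0) :
    HasDerivAt (fun s : ℝ => fld (P + s • w) (A s) (B s))
      (fld P (fun j => A' j - Tt P w j * B 0 j) (fun j => B' j + Tt P w j * A 0 j)) 0 := by
  rw [hasDerivAt_pi]
  intro i
  have hre := (((dX h w i).mul (hA i)).sub ((dY h w i).mul (hB i))).add
    (((dX h w (i + 1)).mul (hA (i + 1))).sub ((dY h w (i + 1)).mul (hB (i + 1))))
  have him := (((dX h w i).mul (hB i)).add ((dY h w i).mul (hA i))).add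
    (((dX h w (i + 1)).mul (hB (i + 1))).add ((dY h w (i + 1)).mul (hA (i + 1))))
  refine ((hre.ofReal_comp).add ((him.ofReal_comp).mul_const Complex.I)).congr_deriv ?_
  simp only [zero_smul, add_zero]
  unfold fld
  congr 1
  · congr 1; ring
  · congr 2; ring

theorem fld_sub (P : V) (A B A' B' : Fin 3 → ℝ) :
    fld P A B - fld P A' B' = fld P (fun j => A j - A' j) (fun j => B j - B' j) := by
  funext i
  rw [Pi.sub_apply]
  unfold fld
  push_cast
  ring

def TT (S C R A B : Fin 3 → ℝ) (j : Fin 3) : ℝ :=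
  R j * (C j * B (j + 1) + S j * A (j + 1) - (C (j - 1) * B (j - 1) - S (j - 1) * A (j - 1)))
def GG (S C A B : Fin 3 → ℝ) (j : Fin 3) : ℝ :=
  C j * A (j + 1) - S j * B (j + 1) - (C (j - 1) * A (j - 1) + S (j - 1) * B (j - 1))

theorem ed_fld (P : V) (A B : Fin 3 → ℝ) (j : Fin 3) :
    (ed (fld P A B) j).re = Xx P (j + 1) * A (j + 1) - Yy P (j + 1) * B (j + 1)
      - (Xx P (j - 1) * A (j - 1) - Yy P (j - 1) * B (j - 1)) ∧
    (ed (fld P A B) j).im = Xx P (j + 1) * B (j + 1) + Yy P (j + 1) * A (j + 1)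
      - (Xx P (j - 1) * B (j - 1) + Yy P (j - 1) * A (j - 1)) := by
  unfold ed fld
  rw [sub_add_cancel]
  constructor
  · simp only [Complex.sub_re, Complex.add_re, Complex.ofReal_re, Complex.mul_re, Complex.I_re,
      mul_zero, Complex.ofReal_im, Complex.I_im, mul_one, sub_self, add_zero]
    ring
  · simp only [Complex.sub_im, Complex.add_im, Complex.ofReal_im, Complex.mul_im, Complex.I_im,
      Complex.ofReal_re, Complex.I_re, mul_zero, mul_one, add_zero, zero_add]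
    ring

theorem Tt_fld (P : V) (A B : Fin 3 → ℝ) : Tt P (fld P A B) = TT (Ss P) (Cc P) (Rr P) A B := by
  funext j
  unfold Tt
  obtain ⟨h1, h2⟩ := ed_fld P A B j
  rw [h1, h2]
  unfold TT Ss Cc
  rw [sub_add_cancel]
  ring

theorem Gg_fld (P : V) (A B : Fin 3 → ℝ) : Gg P (fld P A B) = GG (Ss P) (Cc P) A B := by
  funext j
  unfold Gg
  obtain ⟨h1, h2⟩ := ed_fld P A B j
  rw [h1, h2]
  unfold GG Ss Cc
  rw [sub_add_cancel]
  ring

end Pool.Agent.X98.PM
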