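import Pool.Agent.X98.PM.Five

set_option autoImplicit false
set_option linter.unusedSimpArgs false

/-! The values at the triangle with sides 3, 4, 5. -/

namespace Pool.Agent.X98.PM

noncomputable def S0 : Fin 3 → ℝ := ![1, 4/5, 3/5]
noncomputable def C0 : Fin 3 → ℝ := ![0, -3/5, -4/5]
noncomputable def R0 : Fin 3 → ℝ := ![1/4, 1/3, 1/5]

theorem s00 : S0 0 = 1 := rfl
theorem s01 : S0 1 = 4/5 := rfl
theorem s02 : S0 2 = 3/5 := rfl
theorem c00 : C0 0 = 0 := rfl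
theorem c01 : C0 1 = -3/5 := rfl
theorem c02 : C0 2 = -4/5 := rfl
theorem r00 : R0 0 = 1/4 := rfl
theorem r01 : R0 1 = 1/3 := rfl
theorem r02 : R0 2 = 1/5 := rfl
theorem im0 : (0 : Fin 3) - 1 = 2 := rfl
theorem im1 : (1 : Fin 3) - 1 = 0 := rfl
theorem im2 : (2 : Fin 3) - 1 = 1 := rfl
theorem ip0 : (0 : Fin 3) + 1 = 1 := rfl
theorem ip1 : (1 : Fin 3) + 1 = 2 := rfl
theorem ip2 : (2 : Fin 3) + 1 = 0 := rfl
theorem e0 (a b c : ℝ) : (![a, b, c] : Fin 3 → ℝ) 0 = a := rfl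
theorem e1 (a b c : ℝ) : (![a, b, c] : Fin 3 → ℝ) 1 = b := rfl
theorem e2 (a b c : ℝ) : (![a, b, c] : Fin 3 → ℝ) 2 = c := rfl
theorem ext3 {f g : Fin 3 → ℝ} (h0 : f 0 = g 0) (h1 : f 1 = g 1) (h2 : f 2 = g 2) : f = g := by
  funext j
  match j with
  | 0 => exact h0
  | 1 => exact h1
  | 2 => exact h2

theorem vK : Kk S0 R0 = ![-1/10, 1/15, 1/25] := by
  refine ext3 ?_ ?_ ?_ <;> simp only [Kk, s00, s01, s02, c00, c01, c02, r00, r01, r02, im0, im1, im2, ip0, ip1, ip2, e0, e1, e2] <;> norm_num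

theorem vOm : Om S0 R0 = ![2/5, 3/5, 7/25] := by
  refine ext3 ?_ ?_ ?_ <;> simp only [Om, s00, s01, s02, c00, c01, c02, r00, r01, r02, im0, im1, im2, ip0, ip1, ip2, e0, e1, e2] <;> norm_num

theorem vMu : Mu S0 C0 R0 = ![1/125, -1/125, 3/125] := by
  refine ext3 ?_ ?_ ?_ <;> simp only [Mu, vK, s00, s01, s02, c00, c01, c02, r00, r01, r02, im0, im1, im2, ip0, ip1, ip2, e0, e1, e2] <;> norm_num

theorem vNu : Nu S0 C0 R0 = ![-1/250, -19/375, 37/625] := by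
  refine ext3 ?_ ?_ ?_ <;> simp only [Nu, vOm, s00, s01, s02, c00, c01, c02, r00, r01, r02, im0, im1, im2, ip0, ip1, ip2, e0, e1, e2] <;> norm_num

theorem vA3 : A3 S0 R0 = ![1/25, -1/25, -7/625] := by
  refine ext3 ?_ ?_ ?_ <;> simp only [A3, vOm, vK, s00, s01, s02, c00, c01, c02, r00, r01, r02, im0, im1, im2, ip0, ip1, ip2, e0, e1, e2] <;> norm_num

theorem vB3 : B3 S0 C0 R0 = ![-3/250, -16/375, 22/625] := by
  refine ext3 ?_ ?_ ?_ <;> simp only [B3, vNu, vMu, s00, s01, s02, c00, c01, c02, r00, r01, r02, im0, im1, im2, ip0, ip1, ip2, e0, e1, e2] <;> norm_num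

theorem vT1 : TT S0 C0 R0 1 0 = ![2/5, 3/5, 7/25] := by
  refine ext3 ?_ ?_ ?_ <;> simp only [TT, Pi.one_apply, Pi.zero_apply, s00, s01, s02, c00, c01, c02, r00, r01, r02, im0, im1, im2, ip0, ip1, ip2, e0, e1, e2] <;> norm_num

theorem vG1 : GG S0 C0 1 0 = ![4/5, -3/5, -1/5] := by
  refine ext3 ?_ ?_ ?_ <;> simp only [GG, Pi.one_apply, Pi.zero_apply, s00, s01, s02, c00, c01, c02, r00, r01, r02, im0, im1, im2, ip0, ip1, ip2, e0, e1, e2] <;> norm_num

theorem vT2 : TT S0 C0 R0 0 ![-1/10, 1/15, 1/25] = ![1/125, -1/125, 3/125] := by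
  refine ext3 ?_ ?_ ?_ <;> simp only [TT, Pi.zero_apply, s00, s01, s02, c00, c01, c02, r00, r01, r02, im0, im1, im2, ip0, ip1, ip2, e0, e1, e2] <;> norm_num

theorem vG2 : GG S0 C0 0 ![-1/10, 1/15, 1/25] = ![-34/375, 17/250, 1/150] := by
  refine ext3 ?_ ?_ ?_ <;> simp only [GG, Pi.zero_apply, s00, s01, s02, c00, c01, c02, r00, r01, r02, im0, im1, im2, ip0, ip1, ip2, e0, e1, e2] <;> norm_num

theorem vT3 : TT S0 C0 R0 ![1/25, -1/25, -7/625] ![-3/250, -16/375, 22/625] = ![-29/6250, 31/9375, -3/625] := by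
  refine ext3 ?_ ?_ ?_ <;> simp only [TT, s00, s01, s02, c00, c01, c02, r00, r01, r02, im0, im1, im2, ip0, ip1, ip2, e0, e1, e2] <;> norm_num

theorem vG3 : GG S0 C0 ![1/25, -1/25, -7/625] ![-3/250, -16/375, 22/625] = ![118/9375, -59/6250, -11/750] := by
  refine ext3 ?_ ?_ ?_ <;> simp only [GG, s00, s01, s02, c00, c01, c02, r00, r01, r02, im0, im1, im2, ip0, ip1, ip2, e0, e1, e2] <;> norm_num

theorem vdS1 : dSs C0 ![2/5, 3/5, 7/25] = ![0, 24/125, -12/125] := by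
  refine ext3 ?_ ?_ ?_ <;> simp only [dSs, s00, s01, s02, c00, c01, c02, r00, r01, r02, im0, im1, im2, ip0, ip1, ip2, e0, e1, e2] <;> norm_num

theorem vdC1 : dCc S0 ![2/5, 3/5, 7/25] = ![-1/5, 32/125, -9/125] := by
  refine ext3 ?_ ?_ ?_ <;> simp only [dCc, s00, s01, s02, c00, c01, c02, r00, r01, r02, im0, im1, im2, ip0, ip1, ip2, e0, e1, e2] <;> norm_num

theorem vdR1 : dRr R0 ![4/5, -3/5, -1/5] = ![-1/20, 1/15, 1/125] := by
  refine ext3 ?_ ?_ ?_ <;> simp only [dRr, s00, s01, s02, c00, c01, c02, r00, r01, r02, im0, im1, im2, ip0, ip1, ip2, e0, e1, e2] <;> norm_num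

theorem vdS2 : dSs C0 ![1/125, -1/125, 3/125] = ![0, -12/625, 8/625] := by
  refine ext3 ?_ ?_ ?_ <;> simp only [dSs, s00, s01, s02, c00, c01, c02, r00, r01, r02, im0, im1, im2, ip0, ip1, ip2, e0, e1, e2] <;> norm_num

theorem vdC2 : dCc S0 ![1/125, -1/125, 3/125] = ![2/125, -16/625, 6/625] := by
  refine ext3 ?_ ?_ ?_ <;> simp only [dCc, s00, s01, s02, c00, c01, c02, r00, r01, r02, im0, im1, im2, ip0, ip1, ip2, e0, e1, e2] <;> norm_num

theorem vdR2 : dRr R0 ![-34/375, 17/250, 1/150] = ![17/3000, -17/2250, -1/3750] := by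
  refine ext3 ?_ ?_ ?_ <;> simp only [dRr, s00, s01, s02, c00, c01, c02, r00, r01, r02, im0, im1, im2, ip0, ip1, ip2, e0, e1, e2] <;> norm_num

theorem vdS3 : dSs C0 ![-29/6250, 31/9375, -3/625] = ![0, 76/15625, -2/15625] := by
  refine ext3 ?_ ?_ ?_ <;> simp only [dSs, s00, s01, s02, c00, c01, c02, r00, r01, r02, im0, im1, im2, ip0, ip1, ip2, e0, e1, e2] <;> norm_num

theorem vdC3 : dCc S0 ![-29/6250, 31/9375, -3/625] = ![-149/18750, 304/46875, -3/31250] := by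
  refine ext3 ?_ ?_ ?_ <;> simp only [dCc, s00, s01, s02, c00, c01, c02, r00, r01, r02, im0, im1, im2, ip0, ip1, ip2, e0, e1, e2] <;> norm_num

theorem vdR3 : dRr R0 ![118/9375, -59/6250, -11/750] = ![-59/75000, 59/56250, 11/18750] := by
  refine ext3 ?_ ?_ ?_ <;> simp only [dRr, s00, s01, s02, c00, c01, c02, r00, r01, r02, im0, im1, im2, ip0, ip1, ip2, e0, e1, e2] <;> norm_num

theorem vDK1 : DKk S0 R0 ![0, 24/125, -12/125] ![-1/20, 1/15, 1/125] = ![-1/250, -19/375, 37/625] := by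
  refine ext3 ?_ ?_ ?_ <;> simp only [DKk, s00, s01, s02, c00, c01, c02, r00, r01, r02, im0, im1, im2, ip0, ip1, ip2, e0, e1, e2] <;> norm_num

theorem vDK2 : DKk S0 R0 ![0, -12/625, 8/625] ![17/3000, -17/2250, -1/3750] = ![7/7500, 11/2250, -121/18750] := by
  refine ext3 ?_ ?_ ?_ <;> simp only [DKk, s00, s01, s02, c00, c01, c02, r00, r01, r02, im0, im1, im2, ip0, ip1, ip2, e0, e1, e2] <;> norm_num

theorem vDK3 : DKk S0 R0 ![0, 76/15625, -2/15625] ![-59/75000, 59/56250, 11/18750] = ![53/187500, -397/281250, 523/468750] := by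
  refine ext3 ?_ ?_ ?_ <;> simp only [DKk, s00, s01, s02, c00, c01, c02, r00, r01, r02, im0, im1, im2, ip0, ip1, ip2, e0, e1, e2] <;> norm_num

theorem vDO1 : DOm S0 R0 ![0, 24/125, -12/125] ![-1/20, 1/15, 1/125] = ![-13/125, 23/125, 19/625] := by
  refine ext3 ?_ ?_ ?_ <;> simp only [DOm, s00, s01, s02, c00, c01, c02, r00, r01, r02, im0, im1, im2, ip0, ip1, ip2, e0, e1, e2] <;> norm_num

theorem vDM1 : DMu S0 C0 R0 ![0, 24/125, -12/125] ![-1/5, 32/125, -9/125] ![-1/20, 1/15, 1/125] = ![143/18750, -313/18750, -121/18750] := by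
  refine ext3 ?_ ?_ ?_ <;> simp only [DMu, vK, vDK1, s00, s01, s02, c00, c01, c02, r00, r01, r02, im0, im1, im2, ip0, ip1, ip2, e0, e1, e2] <;> norm_num

theorem vDN1 : DNu S0 C0 R0 ![0, 24/125, -12/125] ![-1/5, 32/125, -9/125] ![-1/20, 1/15, 1/125] = ![207/6250, -442/9375, -162/15625] := by
  refine ext3 ?_ ?_ ?_ <;> simp only [DNu, vOm, vDO1, s00, s01, s02, c00, c01, c02, r00, r01, r02, im0, im1, im2, ip0, ip1, ip2, e0, e1, e2] <;> norm_num

theorem vDA1 : DA3 S0 R0 ![0, 24/125, -12/125] ![-1/20, 1/15, 1/125] = ![-11/1250, 34/1875, -278/15625] := by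
  refine ext3 ?_ ?_ ?_ <;> simp only [DA3, vK, vOm, vDK1, vDO1, s00, s01, s02, c00, c01, c02, r00, r01, r02, im0, im1, im2, ip0, ip1, ip2, e0, e1, e2] <;> norm_num

theorem vDB1 : DB3 S0 C0 R0 ![0, 24/125, -12/125] ![-1/5, 32/125, -9/125] ![-1/20, 1/15, 1/125] = ![239/9375, -571/18750, -367/93750] := by
  refine ext3 ?_ ?_ ?_ <;> simp only [DB3, vDN1, vDM1, s00, s01, s02, c00, c01, c02, r00, r01, r02, im0, im1, im2, ip0, ip1, ip2, e0, e1, e2] <;> norm_num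

theorem vDO2 : DOm S0 R0 ![0, -12/625, 8/625] ![17/3000, -17/2250, -1/3750] = ![23/1875, -1/50, -31/18750] := by
  refine ext3 ?_ ?_ ?_ <;> simp only [DOm, s00, s01, s02, c00, c01, c02, r00, r01, r02, im0, im1, im2, ip0, ip1, ip2, e0, e1, e2] <;> norm_num

theorem vDM2 : DMu S0 C0 R0 ![0, -12/625, 8/625] ![2/125, -16/625, 6/625] ![17/3000, -17/2250, -1/3750] = ![-44/46875, 26/15625, 26/46875] := by
  refine ext3 ?_ ?_ ?_ <;> simp only [DMu, vK, vDK2, s00, s01, s02, c00, c01, c02, r00, r01, r02, im0, im1, im2, ip0, ip1, ip2, e0, e1, e2] <;> norm_num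

theorem vDN2 : DNu S0 C0 R0 ![0, -12/625, 8/625] ![2/125, -16/625, 6/625] ![17/3000, -17/2250, -1/3750] = ![-32/9375, 79/15625, 191/234375] := by
  refine ext3 ?_ ?_ ?_ <;> simp only [DNu, vOm, vDO2, s00, s01, s02, c00, c01, c02, r00, r01, r02, im0, im1, im2, ip0, ip1, ip2, e0, e1, e2] <;> norm_num

theorem vDA2 : DA3 S0 R0 ![0, -12/625, 8/625] ![17/3000, -17/2250, -1/3750] = ![8/9375, -1/625, 439/234375] := by
  refine ext3 ?_ ?_ ?_ <;> simp only [DA3, vK, vOm, vDK2, vDO2, s00, s01, s02, c00, c01, c02, r00, r01, r02, im0, im1, im2, ip0, ip1, ip2, e0, e1, e2] <;> norm_num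

theorem vDB2 : DB3 S0 C0 R0 ![0, -12/625, 8/625] ![2/125, -16/625, 6/625] ![17/3000, -17/2250, -1/3750] = ![-116/46875, 53/15625, 61/234375] := by
  refine ext3 ?_ ?_ ?_ <;> simp only [DB3, vDN2, vDM2, s00, s01, s02, c00, c01, c02, r00, r01, r02, im0, im1, im2, ip0, ip1, ip2, e0, e1, e2] <;> norm_num

theorem vA4 : A4 S0 C0 R0 = ![-1/250, 82/1875, -432/15625] := by
  refine ext3 ?_ ?_ ?_ <;> simp only [A4, vT1, vG1, vdS1, vdR1, vDA1, vB3, s00, s01, s02, c00, c01, c02, r00, r01, r02, im0, im1, im2, ip0, ip1, ip2, e0, e1, e2] <;> norm_num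

theorem vB4 : B4 S0 C0 R0 = ![173/3750, -361/6250, -211/93750] := by
  refine ext3 ?_ ?_ ?_ <;> simp only [B4, vT1, vG1, vdS1, vdC1, vdR1, vDB1, vA3, vB3, vT3, s00, s01, s02, c00, c01, c02, r00, r01, r02, im0, im1, im2, ip0, ip1, ip2, e0, e1, e2] <;> norm_num

theorem vA5 : A5 S0 C0 R0 = ![53/37500, -242/140625, 196/234375] := by
  refine ext3 ?_ ?_ ?_ <;> simp only [A5, vK, vT2, vG2, vdS2, vdR2, vDA2, vA3, vB3, vT3, s00, s01, s02, c00, c01, c02, r00, r01, r02, im0, im1, im2, ip0, ip1, ip2, e0, e1, e2] <;> norm_num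

theorem vB5 : B5 S0 C0 R0 = ![-457/187500, 1441/281250, -527/468750] := by
  refine ext3 ?_ ?_ ?_ <;> simp only [B5, vK, vT2, vG2, vdS2, vdC2, vdR2, vDB2, vA3, vB3, vT3, vG3, vdS3, vdR3, vDK3, s00, s01, s02, c00, c01, c02, r00, r01, r02, im0, im1, im2, ip0, ip1, ip2, e0, e1, e2] <;> norm_num

/-- a vector of coefficients -/
def cf (A B : Fin 3 → ℝ) : Fin 6 → ℝ := ![A 0, A 1, A 2, B 0, B 1, B 2]

/-- the matrix of the coefficients of the five fields -/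
def MM (S C R : Fin 3 → ℝ) : Matrix (Fin 6) (Fin 6) ℝ :=
  Matrix.of ![cf 1 0, cf 0 (Kk S R), cf (A3 S R) (B3 S C R), cf (A4 S C R) (B4 S C R),
    cf (A5 S C R) (B5 S C R), cf 0 ![1, 0, 0]]

theorem vMM : MM S0 C0 R0 = !![1, 1, 1, 0, 0, 0; 0, 0, 0, -1/10, 1/15, 1/25; 1/25, -1/25, -7/625, -3/250, -16/375, 22/625; -1/250, 82/1875, -432/15625, 173/3750, -361/6250, -211/93750; 53/37500, -242/140625, 196/234375, -457/187500, 1441/281250, -527/468750; 0, 0, 0, 1, 0, 0] := by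
  unfold MM
  rw [vK, vA3, vB3, vA4, vB4, vA5, vB5]
  ext i j
  fin_cases i <;> fin_cases j <;> norm_num [cf, e0, e1, e2]

theorem det_ne : (MM S0 C0 R0).det ≠ 0 := by
  rw [vMM]
  have h : (!![1, 1, 1, 0, 0, 0; 0, 0, 0, -1/10, 1/15, 1/25; 1/25, -1/25, -7/625, -3/250, -16/375, 22/625; -1/250, 82/1875, -432/15625, 173/3750, -361/6250, -211/93750; 53/37500, -242/140625, 196/234375, -457/187500, 1441/281250, -527/468750; 0, 0, 0, 1, 0, 0] : Matrix (Fin 6) (Fin 6) ℝ) *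
      !![9327652/34080167, -4050670/3098197, 357311500/34080167, 455475000/34080167, 8690062500/34080167, 0; 17819865/68160334, 37188645/6196394, -388862625/68160334, 412059375/34080167, 364781250/34080167, 0; 31685165/68160334, -29087305/6196394, -325760375/68160334, -867534375/34080167, -9054843750/34080167, 0; 0, 0, 0, 0, 0, 1; -1586133/34080167, 39148077/6196394, -100521675/34080167, 113023125/34080167, 4287093750/34080167, 3/4; 2643555/34080167, 89663055/6196394, 167536125/34080167, -188371875/34080167, -7145156250/34080167, 5/4] = 1 := by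
    ext i j
    fin_cases i <;> fin_cases j <;> norm_num [Matrix.mul_apply, Fin.sum_univ_succ]
  intro h0
  have := congrArg Matrix.det h
  rw [Matrix.det_mul, h0, zero_mul, Matrix.det_one] at this
  exact zero_ne_one this

end Pool.Agent.X98.PM
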